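import Pool.Agent.E8helper67.KH.Blob

/-!
The base blob: lattice points below a parabola.
-/

set_option autoImplicit false

open Filter Set
open scoped Topology

namespace Pool.Agent.E8helper67.KH

lemma inS_bound {R : ℕ} {x : ℤ × ℤ} (h : inS R x) : x.1 ≤ (R:ℤ) ^ 2 ∧ x.2 ≤ (R:ℤ) ^ 2 := by
  obtain ⟨a, b, c⟩ := h
  constructor
  · have : x.1 ≤ x.1 ^ 2 := by nlinarith
    linarith
  · nlinarith [sq_nonneg x.1]

/-- seven collinear lattice points of the region -/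
lemma line_seven {R : ℕ} {M lam e : ℝ} {T : ℕ} (hT : (R : ℤ) ^ 2 < 2 ^ T) (hM : (R : ℝ) ^ 2 < M)
    (h0 : 0 < lam) (h1 : lam ≤ 1 / 2) (h2 : 2 * (3 * 2 ^ T) * lam < 1) (he : 0 < e)
    {Y : Finset (Fin (R + 1) ⊕ Low R)} (h7 : 7 ≤ Y.card)
    (hcol : ∀ a ∈ Y, ∀ b ∈ Y, ∀ c ∈ Y, crZ (Zp R a) (Zp R b) (Zp R c) = 0) :
    ∃ a ∈ Y, ∃ b ∈ Y, ∃ c ∈ Y, ∃ z, In (pert M lam e T (Zp R a)) (pert M lam e T (Zp R b))
      (pert M lam e T (Zp R c)) (pert M lam e T (Zp R z)) := by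
  classical
  obtain ⟨i0, hi0, i1, hi1, hne⟩ := Finset.one_lt_card.1 (show 1 < Y.card by omega)
  set p := Zp R i0 with hp
  set r := Zp R i1 with hr
  have hpr : p ≠ r := fun h => hne (Zp_inj R h)
  set d1 := r.1 - p.1 with hd1
  set d2 := r.2 - p.2 with hd2
  have hd : ¬ (d1 = 0 ∧ d2 = 0) := by
    rintro ⟨a, b⟩
    apply hpr
    apply Prod.ext <;> omega
  have hg : 0 < Int.gcd d1 d2 := by
    rw [Nat.pos_iff_ne_zero]
    intro h
    rw [Int.gcd_eq_zero_iff] at h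
    exact hd h
  obtain ⟨u, v, huv1, hu, hv⟩ := Int.exists_gcd_one hg
  have huv : IsCoprime u v := Int.isCoprime_iff_gcd_eq_one.2 huv1
  obtain ⟨a, b, hab⟩ := huv
  have huv : IsCoprime u v := ⟨a, b, hab⟩
  have hg' : (Int.gcd d1 d2 : ℤ) ≠ 0 := by exact_mod_cast hg.ne'
  set tt : Fin (R + 1) ⊕ Low R → ℤ := fun i => a * ((Zp R i).1 - p.1) + b * ((Zp R i).2 - p.2) with htt
  have hline : ∀ i ∈ Y, Zp R i = lpt p u v (tt i) := by
    intro i hi
    have hc := hcol i0 hi0 i1 hi1 i hi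
    unfold crZ at hc
    rw [← hp, ← hr, ← hd1, ← hd2] at hc
    have hc2 : u * ((Zp R i).2 - p.2) = v * ((Zp R i).1 - p.1) := by
      have h3 : (Int.gcd d1 d2 : ℤ) * (u * ((Zp R i).2 - p.2) - v * ((Zp R i).1 - p.1)) = 0 := by
        linear_combination hc - ((Zp R i).2 - p.2) * hu + ((Zp R i).1 - p.1) * hv
      rcases mul_eq_zero.1 h3 with h4 | h4
      · exact absurd h4 hg'
      · linarith
    unfold lpt
    rw [htt]
    apply Prod.ext
    · simp only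
      linear_combination (-((Zp R i).1 - p.1)) * hab - b * hc2
    · simp only
      linear_combination (-((Zp R i).2 - p.2)) * hab + a * hc2
  set X := Y.image tt with hX
  have hinj : Set.InjOn tt Y := by
    intro i hi j hj hij
    apply Zp_inj R
    rw [hline i hi, hline j hj, hij]
  have hXc : X.card = Y.card := Finset.card_image_of_injOn hinj
  have hXne : X.Nonempty := by rw [← Finset.card_pos]; omega
  set A := X.min' hXne with hA
  set B := X.max' hXne with hB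
  have hAX : A ∈ X := Finset.min'_mem _ _
  have hBX : B ∈ X := Finset.max'_mem _ _
  have hAB : A < B := by
    obtain ⟨x, hx, y, hy, hxy⟩ := Finset.one_lt_card.1 (show 1 < X.card by omega)
    have a1 := Finset.min'_le X x hx
    have a2 := Finset.min'_le X y hy
    have a3 := Finset.le_max' X x hx
    have a4 := Finset.le_max' X y hy
    omega
  have hSX : ∀ t ∈ X, inS R (lpt p u v t) := by
    intro t ht
    obtain ⟨i, hi, rfl⟩ := Finset.mem_image.1 ht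
    rw [← hline i hi]
    exact Zp_mem R i
  have hSA := hSX A hAX
  have hSB := hSX B hBX
  have bA := inS_bound hSA
  have bB := inS_bound hSB
  have hu1 : |(B - A) * u| ≤ (R:ℤ) ^ 2 := by
    have e1 : (B - A) * u = (lpt p u v B).1 - (lpt p u v A).1 := by unfold lpt; ring
    rw [e1, abs_le]
    constructor <;> linarith [hSA.1, hSB.1, bA.1, bB.1]
  have hv1 : |(B - A) * v| ≤ (R:ℤ) ^ 2 := by
    have e1 : (B - A) * v = (lpt p u v B).2 - (lpt p u v A).2 := by unfold lpt; ring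
    rw [e1, abs_le]
    constructor <;> linarith [hSA.2.1, hSB.2.1, bA.2, bB.2]
  have hBA1 : 1 ≤ B - A := by omega
  rw [abs_mul, abs_of_pos (show 0 < B - A by omega)] at hu1 hv1
  have hBT : B - A < 2 ^ T := by
    have huv0 : u ≠ 0 ∨ v ≠ 0 := by
      by_contra hc
      push Not at hc
      rw [hc.1, hc.2] at hab
      omega
    refine lt_of_le_of_lt ?_ hT
    rcases huv0 with h | h
    · have : 1 ≤ |u| := Int.one_le_abs h
      nlinarith
    · have : 1 ≤ |v| := Int.one_le_abs h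
      nlinarith
  have hs : e * (u * M - v) ≠ 0 := by
    apply mul_ne_zero he.ne'
    intro hc
    have hvR : |v| ≤ (R:ℤ) ^ 2 := by nlinarith [abs_nonneg v]
    have hvR' : |(v:ℝ)| ≤ (R:ℝ) ^ 2 := by exact_mod_cast hvR
    have h3 : (u:ℝ) * M = v := by linarith
    by_cases hu0 : u = 0
    · rw [hu0] at h3
      have hv0 : v = 0 := by
        have : (v:ℝ) = 0 := by rw [← h3]; push_cast; ring
        exact_mod_cast this
      rw [hu0, hv0] at hab
      omega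
    · have h4 : (1:ℝ) ≤ |(u:ℝ)| := by exact_mod_cast Int.one_le_abs hu0
      have h5 : |(u:ℝ)| * M = |(v:ℝ)| := by
        rw [← h3, abs_mul, abs_of_pos (show (0:ℝ) < M by nlinarith [sq_nonneg (R:ℝ)])]
      nlinarith [sq_nonneg (R:ℝ)]
  have hlev := lev_line p huv (T := T) (A := A) (B := B) hBT h0 h1 h2
  obtain ⟨x, hx, y, hy, w, hw, z, hz, hI⟩ := seven hlev (X := X)
    (fun t ht => ⟨Finset.min'_le X t ht, Finset.le_max' X t ht⟩) (by omega)
  obtain ⟨i, hi, rfl⟩ := Finset.mem_image.1 hx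
  obtain ⟨j, hj, rfl⟩ := Finset.mem_image.1 hy
  obtain ⟨k, hk, rfl⟩ := Finset.mem_image.1 hw
  obtain ⟨m, hm⟩ := Zp_surj R (inS_line R hSA hSB hz.1 hz.2)
  have hf := In_scale (f := fun t => pert M lam e T (lpt p u v t)) hs
    (fun t1 t2 t3 => ori_pert M lam e T p u v t1 t2 t3) hI
  rw [← hline i hi, ← hline j hj, ← hline k hk, ← hm] at hf
  rcases hf with hf | hf
  · exact ⟨i, hi, j, hj, k, hk, m, hf⟩
  · exact ⟨i, hi, k, hk, j, hj, m, hf⟩

/-- the base configuration has bounded holes -/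
lemma base_bd (R : ℕ) {M lam : ℝ} {T : ℕ} (hT : (R : ℤ) ^ 2 < 2 ^ T) (hM : (R : ℝ) ^ 2 < M)
    (h0 : 0 < lam) (h1 : lam ≤ 1 / 2) (h2 : 2 * (3 * 2 ^ T) * lam < 1) :
    ∀ᶠ e in 𝓝[>] (0:ℝ), Bd (fun i => pert M lam e T (Zp R i)) 54 := by
  classical
  have hev := eventually_In_all (l := 𝓝[>] (0:ℝ)) (ι' := Fin (R + 1) ⊕ Low R) (π := id)
    (P := fun i => toR (Zp R i)) (P' := fun e i => pert M lam e T (Zp R i))
    (fun i => pert_tendsto M lam T (Zp R i))
  filter_upwards [hev, self_mem_nhdsWithin] with e he hpos X hX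
  -- nine classes
  obtain ⟨y, hy, hcard⟩ := Finset.exists_lt_card_fiber_of_mul_lt_card_of_maps_to
    (s := X) (t := (Finset.Icc (0:ℤ) 2) ×ˢ (Finset.Icc (0:ℤ) 2)) (n := 6)
    (f := fun i => ((Zp R i).1 % 3, (Zp R i).2 % 3))
    (by
      intro i _
      rw [Finset.mem_product, Finset.mem_Icc, Finset.mem_Icc]
      simp only
      omega)
    (by
      rw [Finset.card_product]
      simp only [Int.card_Icc]
      norm_num
      exact hX)
  set Y := X.filter (fun i => ((Zp R i).1 % 3, (Zp R i).2 % 3) = y) with hY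
  have hYX : ∀ i ∈ Y, i ∈ X := fun i hi => (Finset.mem_filter.1 hi).1
  have hYc : ∀ i ∈ Y, ∀ j ∈ Y, (Zp R i).1 % 3 = (Zp R j).1 % 3 ∧ (Zp R i).2 % 3 = (Zp R j).2 % 3 := by
    intro i hi j hj
    have a1 := (Finset.mem_filter.1 hi).2
    have a2 := (Finset.mem_filter.1 hj).2
    rw [← a2, Prod.mk.injEq] at a1
    exact a1
  by_cases hcol : ∀ a ∈ Y, ∀ b ∈ Y, ∀ c ∈ Y, crZ (Zp R a) (Zp R b) (Zp R c) = 0
  · obtain ⟨a, ha, b, hb, c, hc, z, hz⟩ := line_seven (e := e) hT hM h0 h1 h2 hpos (by omega) hcol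
    exact ⟨a, hYX a ha, b, hYX b hb, c, hYX c hc, z, hz⟩
  · push Not at hcol
    obtain ⟨a, ha, b, hb, c, hc, hne⟩ := hcol
    rcases lt_or_gt_of_ne hne with h | h
    · have h' : 0 < crZ (Zp R a) (Zp R c) (Zp R b) := by
        have : crZ (Zp R a) (Zp R c) (Zp R b) = - crZ (Zp R a) (Zp R b) (Zp R c) := by unfold crZ; ring
        omega
      obtain ⟨z, hz, hI⟩ := centroid R (Zp_mem R a) (Zp_mem R c) (Zp_mem R b) (hYc a ha c hc).1
        (hYc a ha c hc).2 (hYc a ha b hb).1 (hYc a ha b hb).2 h'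
      obtain ⟨m, rfl⟩ := Zp_surj R hz
      exact ⟨a, hYX a ha, c, hYX c hc, b, hYX b hb, m, he a c b m hI⟩
    · obtain ⟨z, hz, hI⟩ := centroid R (Zp_mem R a) (Zp_mem R b) (Zp_mem R c) (hYc a ha b hb).1
        (hYc a ha b hb).2 (hYc a ha c hc).1 (hYc a ha c hc).2 h
      obtain ⟨m, rfl⟩ := Zp_surj R hz
      exact ⟨a, hYX a ha, b, hYX b hb, c, hYX c hc, m, he a b c m hI⟩

/-- the base family -/
lemma base_fam (R : ℕ) : Fam (Fin (R + 1)) (Low R) (2 * R + 1) 54 := by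
  intro θ hθ
  set T := R ^ 2 + 1 with hTd
  have hT : (R : ℤ) ^ 2 < 2 ^ T := by
    have : R ^ 2 < 2 ^ T := lt_trans Nat.lt_two_pow_self (Nat.pow_lt_pow_right (by norm_num) (by omega))
    exact_mod_cast this
  set M : ℝ := (R:ℝ) ^ 2 + 1 with hMd
  have hM : (R : ℝ) ^ 2 < M := by linarith
  set lam : ℝ := 1 / (12 * 2 ^ T) with hlam
  have hp : (1:ℝ) ≤ 2 ^ T := one_le_pow₀ (by norm_num)
  have h0 : 0 < lam := by positivity
  have h1 : lam ≤ 1 / 2 := by
    rw [hlam]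
    apply one_div_le_one_div_of_le (by norm_num)
    linarith
  have h2 : 2 * (3 * 2 ^ T) * lam < 1 := by
    rw [hlam, mul_one_div, div_lt_one (by positivity)]
    linarith
  have hlim : ∀ i : Fin (R + 1) ⊕ Low R, Tendsto (fun e => pert M lam e T (Zp R i)) (𝓝[>] 0)
      (𝓝 (toR (Zp R i))) := fun i => pert_tendsto M lam T (Zp R i)
  have hf : ∀ i : Fin (R + 1) ⊕ Low R, Tendsto (fun e => (pert M lam e T (Zp R i)).1) (𝓝[>] 0)
      (𝓝 ((Zp R i).1 : ℝ)) := fun i => (continuous_fst.tendsto _).comp (hlim i)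
  have hs : ∀ i : Fin (R + 1) ⊕ Low R, Tendsto (fun e => (pert M lam e T (Zp R i)).2) (𝓝[>] 0)
      (𝓝 ((Zp R i).2 : ℝ)) := fun i => (continuous_snd.tendsto _).comp (hlim i)
  have hx : ∀ a : Fin (R + 1), (Zp R (Sum.inl a)).1 = (a : ℕ) := fun a => rfl
  have hy : ∀ a : Fin (R + 1), (Zp R (Sum.inl a)).2 = (R:ℤ) ^ 2 - ((a : ℕ) : ℤ) ^ 2 := fun a => rfl
  have ev1 : ∀ᶠ e in 𝓝[>] (0:ℝ), ∀ a b : Fin (R + 1), a < b →
      (pert M lam e T (Zp R (Sum.inl a))).1 < (pert M lam e T (Zp R (Sum.inl b))).1 := by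
    rw [eventually_all]; intro a
    rw [eventually_all]; intro b
    by_cases hab : a < b
    · have hlt : ((Zp R (Sum.inl a)).1 : ℝ) < ((Zp R (Sum.inl b)).1 : ℝ) := by
        rw [hx, hx]
        exact_mod_cast hab
      filter_upwards [(hf (Sum.inl a)).eventually_lt (hf (Sum.inl b)) hlt] with e he _
      exact he
    · exact Eventually.of_forall fun e h => absurd h hab
  have ev2 : ∀ᶠ e in 𝓝[>] (0:ℝ), ∀ a b c : Fin (R + 1), a < b → b < c →
      ori (pert M lam e T (Zp R (Sum.inl a))) (pert M lam e T (Zp R (Sum.inl b)))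
        (pert M lam e T (Zp R (Sum.inl c))) < 0 := by
    rw [eventually_all]; intro a
    rw [eventually_all]; intro b
    rw [eventually_all]; intro c
    by_cases hab : a < b ∧ b < c
    · have hlt : ori (toR (Zp R (Sum.inl a))) (toR (Zp R (Sum.inl b))) (toR (Zp R (Sum.inl c))) < 0 := by
        rw [ori_toR]
        have : crZ (Zp R (Sum.inl a)) (Zp R (Sum.inl b)) (Zp R (Sum.inl c)) < 0 := by
          unfold crZ
          rw [hx, hx, hx, hy, hy, hy]
          have u1 : ((a : ℕ) : ℤ) < ((b : ℕ) : ℤ) := by exact_mod_cast hab.1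
          have u2 : ((b : ℕ) : ℤ) < ((c : ℕ) : ℤ) := by exact_mod_cast hab.2
          have e : (((b : ℕ) : ℤ) - ((a : ℕ) : ℤ)) * ((R:ℤ) ^ 2 - ((c : ℕ) : ℤ) ^ 2 - ((R:ℤ) ^ 2 - ((a : ℕ) : ℤ) ^ 2)) -
            ((R:ℤ) ^ 2 - ((b : ℕ) : ℤ) ^ 2 - ((R:ℤ) ^ 2 - ((a : ℕ) : ℤ) ^ 2)) * (((c : ℕ) : ℤ) - ((a : ℕ) : ℤ)) =
            - ((((b : ℕ) : ℤ) - ((a : ℕ) : ℤ)) * (((c : ℕ) : ℤ) - ((a : ℕ) : ℤ)) * (((c : ℕ) : ℤ) - ((b : ℕ) : ℤ))) := by
            ring
          rw [e]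
          have : 0 < (((b : ℕ) : ℤ) - ((a : ℕ) : ℤ)) * (((c : ℕ) : ℤ) - ((a : ℕ) : ℤ)) * (((c : ℕ) : ℤ) - ((b : ℕ) : ℤ)) := by
            apply mul_pos (mul_pos _ _) _ <;> omega
          omega
        exact_mod_cast this
      filter_upwards [(tendsto_ori (hlim (Sum.inl a)) (hlim (Sum.inl b)) (hlim (Sum.inl c))).eventually_lt_const hlt]
        with e he _ _
      exact he
    · exact Eventually.of_forall fun e h h' => absurd ⟨h, h'⟩ hab
  have ev3 : ∀ᶠ e in 𝓝[>] (0:ℝ), ∀ a b : Fin (R + 1), a < b →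
      |(pert M lam e T (Zp R (Sum.inl b))).2 - (pert M lam e T (Zp R (Sum.inl a))).2| ≤
        (2 * R + 1) * ((pert M lam e T (Zp R (Sum.inl b))).1 - (pert M lam e T (Zp R (Sum.inl a))).1) := by
    rw [eventually_all]; intro a
    rw [eventually_all]; intro b
    by_cases hab : a < b
    · have hlt : |((Zp R (Sum.inl b)).2 : ℝ) - ((Zp R (Sum.inl a)).2 : ℝ)| <
          (2 * R + 1) * (((Zp R (Sum.inl b)).1 : ℝ) - ((Zp R (Sum.inl a)).1 : ℝ)) := by
        rw [hx, hx, hy, hy]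
        push_cast
        have u1 : ((a : ℕ) : ℝ) < ((b : ℕ) : ℝ) := by exact_mod_cast hab
        have u2 : ((b : ℕ) : ℝ) ≤ R := by
          have := b.2
          exact_mod_cast Nat.lt_succ_iff.1 this
        have u3 : (0:ℝ) ≤ ((a : ℕ) : ℝ) := by positivity
        have e : (R:ℝ) ^ 2 - ((b : ℕ) : ℝ) ^ 2 - ((R:ℝ) ^ 2 - ((a : ℕ) : ℝ) ^ 2) =
          - ((((b : ℕ) : ℝ) - ((a : ℕ) : ℝ)) * (((b : ℕ) : ℝ) + ((a : ℕ) : ℝ))) := by ring
        rw [e, abs_neg, abs_of_nonneg (mul_nonneg (by linarith) (by linarith))]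
        nlinarith
      filter_upwards [(((hs (Sum.inl b)).sub (hs (Sum.inl a))).abs).eventually_lt
        (((hf (Sum.inl b)).sub (hf (Sum.inl a))).const_mul (2 * (R:ℝ) + 1)) hlt] with e he _
      exact he.le
    · exact Eventually.of_forall fun e h => absurd h hab
  have ev4 : ∀ᶠ e in 𝓝[>] (0:ℝ), ∀ z : Low R, ∃ a : Fin (R + 1),
      (pert M lam e T (Zp R (Sum.inr z))).2 < (pert M lam e T (Zp R (Sum.inl a))).2 ∧
      |(pert M lam e T (Zp R (Sum.inl a))).1 - (pert M lam e T (Zp R (Sum.inr z))).1| ≤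
        θ * ((pert M lam e T (Zp R (Sum.inl a))).2 - (pert M lam e T (Zp R (Sum.inr z))).2) := by
    rw [eventually_all]; intro z
    have hlt : ((Zp R (Sum.inr z)).2 : ℝ) < ((Zp R (Sum.inl z.1.1)).2 : ℝ) := by
      rw [hy]
      have h3 := z.2
      have h4 : (((z.1.1 : ℕ) ^ 2 + (z.1.2 : ℕ) : ℕ) : ℝ) < ((R ^ 2 : ℕ) : ℝ) := by exact_mod_cast h3
      push_cast at h4 ⊢
      change (((z.1.2 : ℕ) : ℤ) : ℝ) < _
      push_cast
      linarith
    have hx0 : ((Zp R (Sum.inl z.1.1)).1 : ℝ) - ((Zp R (Sum.inr z)).1 : ℝ) = 0 := by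
      rw [hx]
      change ((((z.1.1 : ℕ) : ℤ)) : ℝ) - (((z.1.1 : ℕ) : ℤ) : ℝ) = 0
      ring
    have hlt2 : |((Zp R (Sum.inl z.1.1)).1 : ℝ) - ((Zp R (Sum.inr z)).1 : ℝ)| <
        θ * (((Zp R (Sum.inl z.1.1)).2 : ℝ) - ((Zp R (Sum.inr z)).2 : ℝ)) := by
      rw [hx0, abs_zero]
      exact mul_pos hθ (by linarith)
    filter_upwards [(hs (Sum.inr z)).eventually_lt (hs (Sum.inl z.1.1)) hlt,
      (((hf (Sum.inl z.1.1)).sub (hf (Sum.inr z))).abs).eventually_lt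
        (((hs (Sum.inl z.1.1)).sub (hs (Sum.inr z))).const_mul θ) hlt2] with e he1 he2
    exact ⟨z.1.1, he1, he2.le⟩
  obtain ⟨e, he1, he2, he3, he4, he5⟩ := (ev1.and (ev2.and (ev3.and (ev4.and
    (base_bd R hT hM h0 h1 h2))))).exists
  exact ⟨fun i => pert M lam e T (Zp R i), ⟨he1, he2, he3, he4, he5⟩⟩

end Pool.Agent.E8helper67.KH
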