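import Pool.Agent.E8helper67.KH.Digit

/-!
Blobs: finite families of points whose upper points form a cap, all other points being nearly
vertically below upper points.
-/

set_option autoImplicit false

open Filter Set
open scoped Topology

namespace Pool.Agent.E8helper67.KH

/-- a blob -/
structure IsBlob {α κ : Type} [LinearOrder α] (P : α ⊕ κ → ℝ × ℝ) (θ L : ℝ) (h : ℕ) : Prop where
  mono : ∀ a b : α, a < b → (P (Sum.inl a)).1 < (P (Sum.inl b)).1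
  cap : ∀ a b c : α, a < b → b < c → ori (P (Sum.inl a)) (P (Sum.inl b)) (P (Sum.inl c)) < 0
  slope : ∀ a b : α, a < b →
    |(P (Sum.inl b)).2 - (P (Sum.inl a)).2| ≤ L * ((P (Sum.inl b)).1 - (P (Sum.inl a)).1)
  cone : ∀ z : κ, ∃ a : α, (P (Sum.inr z)).2 < (P (Sum.inl a)).2 ∧
    |(P (Sum.inl a)).1 - (P (Sum.inr z)).1| ≤ θ * ((P (Sum.inl a)).2 - (P (Sum.inr z)).2)
  bd : Bd P h

/-- blobs of a given type with arbitrarily steep columns -/
def Fam (α κ : Type) [LinearOrder α] (L : ℝ) (h : ℕ) : Prop :=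
  ∀ θ : ℝ, 0 < θ → ∃ P : α ⊕ κ → ℝ × ℝ, IsBlob P θ L h

/-- index type of the lower points of the base -/
def Low (R : ℕ) : Type := {p : Fin (R + 1) × Fin (R ^ 2 + 1) // (p.1 : ℕ) ^ 2 + (p.2 : ℕ) < R ^ 2}

instance (R : ℕ) : Fintype (Low R) := by unfold Low; infer_instance

/-- lattice position -/
def Zp (R : ℕ) : Fin (R + 1) ⊕ Low R → ℤ × ℤ
  | Sum.inl i => ((i : ℕ), (R : ℤ) ^ 2 - ((i : ℕ) : ℤ) ^ 2)
  | Sum.inr q => ((q.1.1 : ℕ), (q.1.2 : ℕ))

/-- the lattice region -/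
def inS (R : ℕ) (x : ℤ × ℤ) : Prop := 0 ≤ x.1 ∧ 0 ≤ x.2 ∧ x.1 ^ 2 + x.2 ≤ (R : ℤ) ^ 2

lemma Zp_mem (R : ℕ) (i : Fin (R + 1) ⊕ Low R) : inS R (Zp R i) := by
  rcases i with i | q
  · refine ⟨?_, ?_, ?_⟩
    · simp [Zp]
    · simp only [Zp]
      have h1 : ((i : ℕ) : ℤ) ≤ R := by exact_mod_cast Nat.lt_succ_iff.1 i.2
      have h2 : (0:ℤ) ≤ ((i : ℕ) : ℤ) := by positivity
      nlinarith
    · simp [Zp]
  · refine ⟨?_, ?_, ?_⟩
    · simp [Zp]
    · simp [Zp]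
    · simp only [Zp]
      have := q.2
      exact_mod_cast this.le

lemma Zp_surj (R : ℕ) {x : ℤ × ℤ} (hx : inS R x) : ∃ i, Zp R i = x := by
  obtain ⟨h1, h2, h3⟩ := hx
  obtain ⟨x, y⟩ := x
  simp only at h1 h2 h3
  obtain ⟨a, rfl⟩ := Int.eq_ofNat_of_zero_le h1
  obtain ⟨b, rfl⟩ := Int.eq_ofNat_of_zero_le h2
  have ha : a < R + 1 := by
    have : (a:ℤ) ≤ R := by nlinarith [show (0:ℤ) ≤ b by positivity, show (0:ℤ) ≤ R by positivity]
    omega
  have h3' : a ^ 2 + b ≤ R ^ 2 := by exact_mod_cast h3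
  rcases Nat.lt_or_ge (a ^ 2 + b) (R ^ 2) with h | h
  · have hb : b < R ^ 2 + 1 := by omega
    refine ⟨Sum.inr ⟨(⟨a, ha⟩, ⟨b, hb⟩), h⟩, rfl⟩
  · refine ⟨Sum.inl ⟨a, ha⟩, ?_⟩
    simp only [Zp, Prod.mk.injEq, true_and]
    have : a ^ 2 + b = R ^ 2 := le_antisymm h3' h
    have h5 : ((a ^ 2 + b : ℕ) : ℤ) = ((R ^ 2 : ℕ) : ℤ) := by rw [this]
    push_cast at h5
    linarith

lemma Zp_inj (R : ℕ) : Function.Injective (Zp R) := by
  intro i j h
  rcases i with i | q <;> rcases j with j | r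
  · simp only [Zp, Prod.mk.injEq] at h
    have : (i : ℕ) = j := by exact_mod_cast h.1
    rw [Fin.ext this]
  · exfalso
    simp only [Zp, Prod.mk.injEq] at h
    have h2 := r.2
    have h3 : (((r.1.1 : ℕ) ^ 2 + (r.1.2 : ℕ) : ℕ) : ℤ) < ((R ^ 2 : ℕ) : ℤ) := by exact_mod_cast h2
    push_cast at h3
    rw [← h.2, ← h.1] at h3
    linarith
  · exfalso
    simp only [Zp, Prod.mk.injEq] at h
    have h2 := q.2
    have h3 : (((q.1.1 : ℕ) ^ 2 + (q.1.2 : ℕ) : ℕ) : ℤ) < ((R ^ 2 : ℕ) : ℤ) := by exact_mod_cast h2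
    push_cast at h3
    rw [h.2, h.1] at h3
    linarith
  · simp only [Zp, Prod.mk.injEq] at h
    have h1 : q.1.1 = r.1.1 := Fin.ext (by exact_mod_cast h.1)
    have h2 : q.1.2 = r.1.2 := Fin.ext (by exact_mod_cast h.2)
    have : q = r := Subtype.ext (Prod.ext h1 h2)
    rw [this]

/-- integer orientation -/
def crZ (a b c : ℤ × ℤ) : ℤ := (b.1 - a.1) * (c.2 - a.2) - (b.2 - a.2) * (c.1 - a.1)

/-- real position of a lattice point -/
def toR (x : ℤ × ℤ) : ℝ × ℝ := ((x.1 : ℝ), (x.2 : ℝ))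

lemma ori_toR (a b c : ℤ × ℤ) : ori (toR a) (toR b) (toR c) = (crZ a b c : ℝ) := by
  unfold ori toR crZ; push_cast; ring

/-- centroid of a lattice triangle with congruent vertices -/
lemma centroid (R : ℕ) {a b c : ℤ × ℤ} (ha : inS R a) (hb : inS R b) (hc : inS R c)
    (h1 : a.1 % 3 = b.1 % 3) (h2 : a.2 % 3 = b.2 % 3) (h3 : a.1 % 3 = c.1 % 3) (h4 : a.2 % 3 = c.2 % 3)
    (hpos : 0 < crZ a b c) : ∃ z, inS R z ∧ In (toR a) (toR b) (toR c) (toR z) := by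
  obtain ⟨z1, hz1⟩ : ∃ z1, a.1 + b.1 + c.1 = 3 * z1 := ⟨(a.1 + b.1 + c.1) / 3, by omega⟩
  obtain ⟨z2, hz2⟩ : ∃ z2, a.2 + b.2 + c.2 = 3 * z2 := ⟨(a.2 + b.2 + c.2) / 3, by omega⟩
  obtain ⟨a1, a2, a3⟩ := ha
  obtain ⟨b1, b2, b3⟩ := hb
  obtain ⟨c1, c2, c3⟩ := hc
  refine ⟨(z1, z2), ⟨by simp only; omega, by simp only; omega, ?_⟩, ?_⟩
  · simp only
    have e : 9 * z1 ^ 2 = (a.1 + b.1 + c.1) ^ 2 := by rw [hz1]; ring
    nlinarith [sq_nonneg (a.1 - b.1), sq_nonneg (b.1 - c.1), sq_nonneg (a.1 - c.1)]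
  · refine ⟨?_, ?_, ?_⟩ <;>
    · rw [ori_toR]
      norm_cast
      have e1 : c.1 = 3 * z1 - a.1 - b.1 := by linarith
      have e2 : c.2 = 3 * z2 - a.2 - b.2 := by linarith
      unfold crZ at hpos ⊢
      rw [e1, e2] at hpos
      try rw [e1, e2]
      simp only
      nlinarith

/-- convexity of the region along a line -/
lemma inS_line (R : ℕ) {p : ℤ × ℤ} {u v A B t : ℤ} (hA : inS R (lpt p u v A)) (hB : inS R (lpt p u v B))
    (h1 : A ≤ t) (h2 : t ≤ B) : inS R (lpt p u v t) := by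
  rcases (h1.trans h2).eq_or_lt with h | h
  · have : t = A := by omega
    rw [this]; exact hA
  · obtain ⟨a1, a2, a3⟩ := hA
    obtain ⟨b1, b2, b3⟩ := hB
    unfold lpt at *
    simp only at *
    have hBA : 0 < B - A := by omega
    have hx : (B - A) * (p.1 + t * u) = (B - t) * (p.1 + A * u) + (t - A) * (p.1 + B * u) := by ring
    have hy : (B - A) * (p.2 + t * v) = (B - t) * (p.2 + A * v) + (t - A) * (p.2 + B * v) := by ring
    have k1 : 0 ≤ B - t := by omega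
    have k2 : 0 ≤ t - A := by omega
    refine ⟨?_, ?_, ?_⟩
    · have : 0 ≤ (B - A) * (p.1 + t * u) := by rw [hx]; positivity
      exact nonneg_of_mul_nonneg_right this hBA
    · have : 0 ≤ (B - A) * (p.2 + t * v) := by rw [hy]; positivity
      exact nonneg_of_mul_nonneg_right this hBA
    · have e : (B - A) * ((p.1 + t * u) ^ 2 + (p.2 + t * v)) + u ^ 2 * (B - A) * ((t - A) * (B - t)) =
          (B - t) * ((p.1 + A * u) ^ 2 + (p.2 + A * v)) + (t - A) * ((p.1 + B * u) ^ 2 + (p.2 + B * v)) := by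
        ring
      have e2 : 0 ≤ u ^ 2 * (B - A) * ((t - A) * (B - t)) := by positivity
      have e3 : (B - t) * ((p.1 + A * u) ^ 2 + (p.2 + A * v)) ≤ (B - t) * (R:ℤ) ^ 2 :=
        mul_le_mul_of_nonneg_left a3 k1
      have e4 : (t - A) * ((p.1 + B * u) ^ 2 + (p.2 + B * v)) ≤ (t - A) * (R:ℤ) ^ 2 :=
        mul_le_mul_of_nonneg_left b3 k2
      have e5 : (B - A) * ((p.1 + t * u) ^ 2 + (p.2 + t * v)) ≤ (B - A) * (R:ℤ) ^ 2 := by linarith
      exact le_of_mul_le_mul_left e5 hBA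

/-- the perturbed position -/
noncomputable def pert (M lam e : ℝ) (T : ℕ) (x : ℤ × ℤ) : ℝ × ℝ :=
  ((x.1 : ℝ) + e * hh lam T x, (x.2 : ℝ) + e * (M * hh lam T x))

lemma pert_tendsto (M lam : ℝ) (T : ℕ) (x : ℤ × ℤ) :
    Tendsto (fun e => pert M lam e T x) (𝓝[>] 0) (𝓝 (toR x)) := by
  have hc : Continuous (fun e => pert M lam e T x) := by unfold pert; fun_prop
  have := hc.tendsto 0
  have e : pert M lam 0 T x = toR x := by unfold pert toR; simp
  rw [e] at this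
  exact this.mono_left nhdsWithin_le_nhds

lemma ori_pert (M lam e : ℝ) (T : ℕ) (p : ℤ × ℤ) (u v t1 t2 t3 : ℤ) :
    ori (pert M lam e T (lpt p u v t1)) (pert M lam e T (lpt p u v t2)) (pert M lam e T (lpt p u v t3)) =
      e * (u * M - v) * ori (gp (fun t => hh lam T (lpt p u v t)) t1)
        (gp (fun t => hh lam T (lpt p u v t)) t2) (gp (fun t => hh lam T (lpt p u v t)) t3) := by
  unfold ori pert gp
  simp only
  have e1 : ∀ t, (((lpt p u v t).1 : ℤ) : ℝ) = (p.1 : ℝ) + t * u := by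
    intro t; unfold lpt; push_cast; ring
  have e2 : ∀ t, (((lpt p u v t).2 : ℤ) : ℝ) = (p.2 : ℝ) + t * v := by
    intro t; unfold lpt; push_cast; ring
  rw [e1, e1, e1, e2, e2, e2]
  ring

lemma In_scale {f : ℤ → ℝ × ℝ} {g : ℤ → ℝ} {s : ℝ} (hs : s ≠ 0)
    (h : ∀ a b c, ori (f a) (f b) (f c) = s * ori (gp g a) (gp g b) (gp g c)) {a b c z : ℤ}
    (hI : In (gp g a) (gp g b) (gp g c) (gp g z)) :
    In (f a) (f b) (f c) (f z) ∨ In (f a) (f c) (f b) (f z) := by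
  obtain ⟨h1, h2, h3⟩ := hI
  rcases lt_or_gt_of_ne hs with hs | hs
  · right
    refine ⟨?_, ?_, ?_⟩
    · rw [ori_swap', h]; nlinarith
    · rw [ori_swap', h]; nlinarith
    · rw [ori_swap', h]; nlinarith
  · left
    refine ⟨?_, ?_, ?_⟩
    · rw [h]; positivity
    · rw [h]; positivity
    · rw [h]; positivity

end Pool.Agent.E8helper67.KH
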