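import Pool.Agent.E8helper67.KH.Base

/-!
Replacing every upper point of a blob by a small blob.
-/

set_option autoImplicit false

open Filter Set
open scoped Topology

namespace Pool.Agent.E8helper67.KH

/-- small copy at `A`, sheared with slope `s`, flattened by `k` -/
def pl (A : ℝ × ℝ) (s k e : ℝ) (x : ℝ × ℝ) : ℝ × ℝ := (A.1 + e * x.1, A.2 + e * (s * x.1 + k * x.2))

lemma pl_tendsto (A : ℝ × ℝ) (s k : ℝ) (x : ℝ × ℝ) :
    Tendsto (fun e => pl A s k e x) (𝓝[>] 0) (𝓝 A) := by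
  have hc : Continuous (fun e => pl A s k e x) := by unfold pl; fun_prop
  have := hc.tendsto 0
  have e : pl A s k 0 x = A := by unfold pl; simp
  rw [e] at this
  exact this.mono_left nhdsWithin_le_nhds

lemma ori_pl (A : ℝ × ℝ) (s k e : ℝ) (x y z : ℝ × ℝ) :
    ori (pl A s k e x) (pl A s k e y) (pl A s k e z) = e ^ 2 * k * ori x y z := by
  unfold ori pl; ring

lemma In_pl {A : ℝ × ℝ} {s k e : ℝ} (he : 0 < e) (hk : 0 < k) {x y z w : ℝ × ℝ} (h : In x y z w) :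
    In (pl A s k e x) (pl A s k e y) (pl A s k e z) (pl A s k e w) := by
  obtain ⟨h1, h2, h3⟩ := h
  refine ⟨?_, ?_, ?_⟩ <;> rw [ori_pl] <;> positivity

lemma near_tendsto {W : ℝ → ℝ × ℝ} {C : ℝ × ℝ} (hW : Tendsto W (𝓝[>] 0) (𝓝 C)) (A : ℝ × ℝ) (s k : ℝ)
    (x y : ℝ × ℝ) : Tendsto (fun e => (y.1 - x.1) * ((W e).2 - A.2 - e * (s * x.1 + k * x.2)) -
      (s * (y.1 - x.1) + k * (y.2 - x.2)) * ((W e).1 - A.1 - e * x.1)) (𝓝[>] 0)
      (𝓝 ((y.1 - x.1) * (C.2 - A.2) - (s * (y.1 - x.1) + k * (y.2 - x.2)) * (C.1 - A.1))) := by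
  have hc : Continuous (fun q : ℝ × (ℝ × ℝ) => (y.1 - x.1) * (q.2.2 - A.2 - q.1 * (s * x.1 + k * x.2)) -
      (s * (y.1 - x.1) + k * (y.2 - x.2)) * (q.2.1 - A.1 - q.1 * x.1)) := by fun_prop
  have h0 : Tendsto (fun e : ℝ => e) (𝓝[>] 0) (𝓝 0) := tendsto_id.mono_left nhdsWithin_le_nhds
  have := (hc.tendsto (0, C)).comp (h0.prodMk_nhds hW)
  simpa [Function.comp_def] using this

lemma near_eq (A : ℝ × ℝ) (s k e : ℝ) (x y W : ℝ × ℝ) : ori (pl A s k e x) (pl A s k e y) W =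
    e * ((y.1 - x.1) * (W.2 - A.2 - e * (s * x.1 + k * x.2)) -
      (s * (y.1 - x.1) + k * (y.2 - x.2)) * (W.1 - A.1 - e * x.1)) := by
  unfold ori pl; ring

lemma near_neg {W : ℝ → ℝ × ℝ} {C : ℝ × ℝ} (hW : Tendsto W (𝓝[>] 0) (𝓝 C)) {A : ℝ × ℝ} {s k : ℝ}
    {x y : ℝ × ℝ}
    (h : (y.1 - x.1) * (C.2 - A.2) - (s * (y.1 - x.1) + k * (y.2 - x.2)) * (C.1 - A.1) < 0) :
    ∀ᶠ e in 𝓝[>] (0:ℝ), ori (pl A s k e x) (pl A s k e y) (W e) < 0 := by
  filter_upwards [(near_tendsto hW A s k x y).eventually_lt_const h, self_mem_nhdsWithin] with e he hp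
  rw [near_eq]
  exact mul_neg_of_pos_of_neg hp he

lemma near_pos {W : ℝ → ℝ × ℝ} {C : ℝ × ℝ} (hW : Tendsto W (𝓝[>] 0) (𝓝 C)) {A : ℝ × ℝ} {s k : ℝ}
    {x y : ℝ × ℝ}
    (h : 0 < (y.1 - x.1) * (C.2 - A.2) - (s * (y.1 - x.1) + k * (y.2 - x.2)) * (C.1 - A.1)) :
    ∀ᶠ e in 𝓝[>] (0:ℝ), 0 < ori (pl A s k e x) (pl A s k e y) (W e) := by
  filter_upwards [(near_tendsto hW A s k x y).eventually_const_lt h, self_mem_nhdsWithin] with e he hp
  rw [near_eq]
  exact mul_pos hp he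

/-- slopes at the upper points -/
lemma exists_slope {α κ : Type} [LinearOrder α] [Finite α] {P : α ⊕ κ → ℝ × ℝ} {θ L : ℝ} {h : ℕ}
    (hL : 0 ≤ L) (hP : IsBlob P θ L h) (a : α) : ∃ s : ℝ, |s| ≤ L + 1 ∧
      (∀ b, a < b → (P (Sum.inl b)).2 - (P (Sum.inl a)).2 <
        s * ((P (Sum.inl b)).1 - (P (Sum.inl a)).1)) ∧
      ∀ b, b < a → s * ((P (Sum.inl a)).1 - (P (Sum.inl b)).1) <
        (P (Sum.inl a)).2 - (P (Sum.inl b)).2 := by
  classical
  have := Fintype.ofFinite α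
  set sl : α → ℝ := fun b => ((P (Sum.inl b)).2 - (P (Sum.inl a)).2) /
    ((P (Sum.inl b)).1 - (P (Sum.inl a)).1) with hsl
  have hpos : ∀ b, a < b → 0 < (P (Sum.inl b)).1 - (P (Sum.inl a)).1 := fun b hb => by
    have := hP.mono a b hb; linarith
  have hneg : ∀ b, b < a → 0 < (P (Sum.inl a)).1 - (P (Sum.inl b)).1 := fun b hb => by
    have := hP.mono b a hb; linarith
  have hsl' : ∀ b, b < a → sl b = ((P (Sum.inl a)).2 - (P (Sum.inl b)).2) /
    ((P (Sum.inl a)).1 - (P (Sum.inl b)).1) := by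
    intro b hb
    rw [hsl]
    simp only
    rw [← neg_sub (P (Sum.inl a)).2, ← neg_sub (P (Sum.inl a)).1, neg_div_neg_eq]
  obtain ⟨s, h1, h2⟩ := Order.exists_between_finsets
    (insert (-(L + 1)) ((Finset.univ.filter (fun b => a < b)).image sl))
    (insert (L + 1) ((Finset.univ.filter (fun b => b < a)).image sl)) (by
      intro x hx y hy
      rw [Finset.mem_insert, Finset.mem_image] at hx hy
      have bd1 : ∀ b, a < b → |sl b| ≤ L := by
        intro b hb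
        rw [hsl]
        simp only
        rw [abs_div, abs_of_pos (hpos b hb), div_le_iff₀ (hpos b hb)]
        exact hP.slope a b hb
      have bd2 : ∀ b, b < a → |sl b| ≤ L := by
        intro b hb
        rw [hsl' b hb, abs_div, abs_of_pos (hneg b hb), div_le_iff₀ (hneg b hb)]
        exact hP.slope b a hb
      rcases hx with rfl | ⟨b, hb, rfl⟩ <;> rcases hy with rfl | ⟨c, hc, rfl⟩
      · linarith
      · have := bd2 c (Finset.mem_filter.1 hc).2
        have := (abs_le.1 this).1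
        linarith
      · have := bd1 b (Finset.mem_filter.1 hb).2
        have := (abs_le.1 this).2
        linarith
      · have hb' := (Finset.mem_filter.1 hb).2
        have hc' := (Finset.mem_filter.1 hc).2
        rw [hsl' c hc', hsl]
        simp only
        rw [div_lt_div_iff₀ (hpos b hb') (hneg c hc')]
        have := hP.cap c a b hc' hb'
        unfold ori at this
        nlinarith)
  refine ⟨s, ?_, ?_, ?_⟩
  · rw [abs_le]
    have a1 := h1 (-(L + 1)) (Finset.mem_insert_self _ _)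
    have a2 := h2 (L + 1) (Finset.mem_insert_self _ _)
    constructor <;> linarith
  · intro b hb
    have := h1 (sl b) (Finset.mem_insert_of_mem (Finset.mem_image_of_mem _
      (Finset.mem_filter.2 ⟨Finset.mem_univ _, hb⟩)))
    rw [hsl] at this
    simp only at this
    rwa [div_lt_iff₀ (hpos b hb)] at this
  · intro b hb
    have := h2 (sl b) (Finset.mem_insert_of_mem (Finset.mem_image_of_mem _
      (Finset.mem_filter.2 ⟨Finset.mem_univ _, hb⟩)))
    rw [hsl' b hb] at this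
    rwa [lt_div_iff₀ (hneg b hb)] at this

/-- the flattening factor -/
lemma exists_flat {α κ : Type} [LinearOrder α] [Finite α] {P : α ⊕ κ → ℝ × ℝ} {L₂ : ℝ} {s : α → ℝ}
    (h1 : ∀ a b, a < b → (P (Sum.inl b)).2 - (P (Sum.inl a)).2 <
        s a * ((P (Sum.inl b)).1 - (P (Sum.inl a)).1))
    (h2 : ∀ a b, b < a → s a * ((P (Sum.inl a)).1 - (P (Sum.inl b)).1) <
        (P (Sum.inl a)).2 - (P (Sum.inl b)).2) : ∃ k : ℝ, 0 < k ∧ k * L₂ < 1 ∧
    (∀ a b, a < b → (P (Sum.inl b)).2 - (P (Sum.inl a)).2 <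
        (s a - k * L₂) * ((P (Sum.inl b)).1 - (P (Sum.inl a)).1)) ∧
    ∀ a b, b < a → (s a + k * L₂) * ((P (Sum.inl a)).1 - (P (Sum.inl b)).1) <
        (P (Sum.inl a)).2 - (P (Sum.inl b)).2 := by
  have ev0 : ∀ᶠ k in 𝓝[>] (0:ℝ), k * L₂ < 1 := by
    have hc : Tendsto (fun k : ℝ => k * L₂) (𝓝[>] 0) (𝓝 (0 * L₂)) :=
      ((continuous_id.mul continuous_const).tendsto 0).mono_left nhdsWithin_le_nhds
    rw [zero_mul] at hc
    exact hc.eventually_lt_const (by norm_num)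
  have ev1 : ∀ᶠ k in 𝓝[>] (0:ℝ), ∀ a b, a < b → (P (Sum.inl b)).2 - (P (Sum.inl a)).2 <
        (s a - k * L₂) * ((P (Sum.inl b)).1 - (P (Sum.inl a)).1) := by
    rw [eventually_all]; intro a
    rw [eventually_all]; intro b
    by_cases hab : a < b
    · have hc : Tendsto (fun k : ℝ => (s a - k * L₂) * ((P (Sum.inl b)).1 - (P (Sum.inl a)).1)) (𝓝[>] 0)
          (𝓝 ((s a - 0 * L₂) * ((P (Sum.inl b)).1 - (P (Sum.inl a)).1))) := by
        have : Continuous (fun k : ℝ => (s a - k * L₂) * ((P (Sum.inl b)).1 - (P (Sum.inl a)).1)) := by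
          fun_prop
        exact (this.tendsto 0).mono_left nhdsWithin_le_nhds
      rw [zero_mul, sub_zero] at hc
      filter_upwards [hc.eventually_const_lt (h1 a b hab)] with k hk _
      exact hk
    · exact Eventually.of_forall fun e h => absurd h hab
  have ev2 : ∀ᶠ k in 𝓝[>] (0:ℝ), ∀ a b, b < a → (s a + k * L₂) * ((P (Sum.inl a)).1 - (P (Sum.inl b)).1) <
        (P (Sum.inl a)).2 - (P (Sum.inl b)).2 := by
    rw [eventually_all]; intro a
    rw [eventually_all]; intro b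
    by_cases hab : b < a
    · have hc : Tendsto (fun k : ℝ => (s a + k * L₂) * ((P (Sum.inl a)).1 - (P (Sum.inl b)).1)) (𝓝[>] 0)
          (𝓝 ((s a + 0 * L₂) * ((P (Sum.inl a)).1 - (P (Sum.inl b)).1))) := by
        have : Continuous (fun k : ℝ => (s a + k * L₂) * ((P (Sum.inl a)).1 - (P (Sum.inl b)).1)) := by
          fun_prop
        exact (this.tendsto 0).mono_left nhdsWithin_le_nhds
      rw [zero_mul, add_zero] at hc
      filter_upwards [hc.eventually_lt_const (h2 a b hab)] with k hk _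
      exact hk
    · exact Eventually.of_forall fun e h => absurd h hab
  have evp : ∀ᶠ k in 𝓝[>] (0:ℝ), k ∈ Ioi (0:ℝ) := self_mem_nhdsWithin
  obtain ⟨k, k0, k1, k2, k3⟩ := (evp.and (ev0.and (ev1.and ev2))).exists
  exact ⟨k, k0, k1, k2, k3⟩

variable {α₁ α₂ κ₁ κ₂ : Type}

/-- positions of the blown up configuration -/
def bpos (P₁ : α₁ ⊕ κ₁ → ℝ × ℝ) (P₂ : α₂ ⊕ κ₂ → ℝ × ℝ) (s : α₁ → ℝ) (k e : ℝ) :
    (α₁ ×ₗ α₂) ⊕ (κ₁ ⊕ (α₁ × κ₂)) → ℝ × ℝ
  | Sum.inl q => pl (P₁ (Sum.inl (ofLex q).1)) (s (ofLex q).1) k e (P₂ (Sum.inl (ofLex q).2))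
  | Sum.inr (Sum.inl z) => P₁ (Sum.inr z)
  | Sum.inr (Sum.inr q) => pl (P₁ (Sum.inl q.1)) (s q.1) k e (P₂ (Sum.inr q.2))

/-- projection to the base index -/
def bpi : (α₁ ×ₗ α₂) ⊕ (κ₁ ⊕ (α₁ × κ₂)) → α₁ ⊕ κ₁
  | Sum.inl q => Sum.inl (ofLex q).1
  | Sum.inr (Sum.inl z) => Sum.inr z
  | Sum.inr (Sum.inr q) => Sum.inl q.1

lemma bpos_tendsto (P₁ : α₁ ⊕ κ₁ → ℝ × ℝ) (P₂ : α₂ ⊕ κ₂ → ℝ × ℝ) (s : α₁ → ℝ) (k : ℝ)
    (i : (α₁ ×ₗ α₂) ⊕ (κ₁ ⊕ (α₁ × κ₂))) :
    Tendsto (fun e => bpos P₁ P₂ s k e i) (𝓝[>] 0) (𝓝 (P₁ (bpi i))) := by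
  rcases i with q | z | q
  · exact pl_tendsto _ _ _ _
  · exact tendsto_const_nhds
  · exact pl_tendsto _ _ _ _

/-- the second component, for indices over an upper point -/
def bfib : (α₁ ×ₗ α₂) ⊕ (κ₁ ⊕ (α₁ × κ₂)) → Option (α₂ ⊕ κ₂)
  | Sum.inl q => some (Sum.inl (ofLex q).2)
  | Sum.inr (Sum.inl _) => none
  | Sum.inr (Sum.inr q) => some (Sum.inr q.2)

/-- the index over `a` with second component `x` -/
def bmk (a : α₁) : α₂ ⊕ κ₂ → (α₁ ×ₗ α₂) ⊕ (κ₁ ⊕ (α₁ × κ₂))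
  | Sum.inl u => Sum.inl (toLex (a, u))
  | Sum.inr z => Sum.inr (Sum.inr (a, z))

lemma bpos_bmk (P₁ : α₁ ⊕ κ₁ → ℝ × ℝ) (P₂ : α₂ ⊕ κ₂ → ℝ × ℝ) (s : α₁ → ℝ) (k e : ℝ) (a : α₁)
    (x : α₂ ⊕ κ₂) : bpos P₁ P₂ s k e (bmk a x) = pl (P₁ (Sum.inl a)) (s a) k e (P₂ x) := by
  rcases x with u | z <;> rfl

lemma bmk_inj (a : α₁) : Function.Injective (bmk (κ₁ := κ₁) (α₂ := α₂) (κ₂ := κ₂) a) := by
  intro x y h
  rcases x with u | z <;> rcases y with v | w
  · have h1 := Sum.inl_injective h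
    have h2 : (a, u) = (a, v) := h1
    rw [Prod.mk.injEq] at h2
    rw [h2.2]
  · exact absurd h (by simp [bmk])
  · exact absurd h (by simp [bmk])
  · have h1 := Sum.inr_injective (Sum.inr_injective h)
    rw [Prod.mk.injEq] at h1
    rw [h1.2]

lemma exists_bmk {a : α₁} {i : (α₁ ×ₗ α₂) ⊕ (κ₁ ⊕ (α₁ × κ₂))} (h : bpi i = Sum.inl a) :
    ∃ x, bmk a x = i := by
  rcases i with q | z | q
  · have h1 : (ofLex q).1 = a := Sum.inl_injective h
    refine ⟨Sum.inl (ofLex q).2, ?_⟩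
    rw [← h1]
    rfl
  · exact absurd h (by simp [bpi])
  · have h1 : q.1 = a := Sum.inl_injective h
    refine ⟨Sum.inr q.2, ?_⟩
    rw [← h1]
    rfl

lemma bpi_inr {z : κ₁} {i : (α₁ ×ₗ α₂) ⊕ (κ₁ ⊕ (α₁ × κ₂))} (h : bpi i = Sum.inr z) :
    i = Sum.inr (Sum.inl z) := by
  rcases i with q | w | q
  · exact absurd h (by simp [bpi])
  · have h1 : w = z := Sum.inr_injective h
    rw [h1]
  · exact absurd h (by simp [bpi])

lemma fin_idx [Finite α₁] [Finite α₂] [Finite κ₁] [Finite κ₂] :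
    Finite ((α₁ ×ₗ α₂) ⊕ (κ₁ ⊕ (α₁ × κ₂))) := by
  have h : Finite (α₁ ×ₗ α₂) := inferInstanceAs (Finite (α₁ × α₂))
  infer_instance

/-- hole bound for the blown up configuration -/
lemma blow_bd [Finite α₁] [Finite α₂] [Finite κ₁] [Finite κ₂] [Nonempty α₂] {P₁ : α₁ ⊕ κ₁ → ℝ × ℝ}
    {P₂ : α₂ ⊕ κ₂ → ℝ × ℝ} {h₁ h₂ : ℕ} (hh₂ : 1 ≤ h₂) (b1 : Bd P₁ h₁) (b2 : Bd P₂ h₂) (s : α₁ → ℝ) {k : ℝ}
    (hk : 0 < k) : ∀ᶠ e in 𝓝[>] (0:ℝ), Bd (bpos P₁ P₂ s k e) (h₁ * h₂) := by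
  classical
  have hfin := fin_idx (α₁ := α₁) (α₂ := α₂) (κ₁ := κ₁) (κ₂ := κ₂)
  have hev := eventually_In_all (l := 𝓝[>] (0:ℝ)) (ι' := (α₁ ×ₗ α₂) ⊕ (κ₁ ⊕ (α₁ × κ₂)))
    (P := P₁) (π := bpi) (P' := fun e i => bpos P₁ P₂ s k e i) (bpos_tendsto P₁ P₂ s k)
  filter_upwards [hev, self_mem_nhdsWithin] with e he hpos X hX
  rcases Nat.lt_or_ge h₁ (X.image bpi).card with hc | hc
  · obtain ⟨a, ha, b, hb, c, hc, z, hz⟩ := b1 _ hc
    obtain ⟨a', ha', rfl⟩ := Finset.mem_image.1 ha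
    obtain ⟨b', hb', rfl⟩ := Finset.mem_image.1 hb
    obtain ⟨c', hc', rfl⟩ := Finset.mem_image.1 hc
    obtain ⟨z', rfl⟩ : ∃ z' : (α₁ ×ₗ α₂) ⊕ (κ₁ ⊕ (α₁ × κ₂)), bpi z' = z := by
      rcases z with a | w
      · obtain ⟨u⟩ := ‹Nonempty α₂›
        exact ⟨Sum.inl (toLex (a, u)), rfl⟩
      · exact ⟨Sum.inr (Sum.inl w), rfl⟩
    exact ⟨a', ha', b', hb', c', hc', z', he a' b' c' z' hz⟩
  · obtain ⟨y, hy, hF⟩ := Finset.exists_lt_card_fiber_of_mul_lt_card_of_maps_to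
      (s := X) (t := X.image bpi) (n := h₂) (f := bpi) (fun i hi => Finset.mem_image_of_mem _ hi)
      (lt_of_le_of_lt (Nat.mul_le_mul_right _ hc) hX)
    rcases y with a | z
    · set F := X.filter (fun i => bpi i = Sum.inl a) with hFd
      set Y := F.preimage (bmk a) (bmk_inj a).injOn with hY
      have hFY : F ⊆ Y.image (bmk a) := by
        intro i hi
        obtain ⟨x, rfl⟩ := exists_bmk (Finset.mem_filter.1 hi).2
        exact Finset.mem_image_of_mem _ (Finset.mem_preimage.2 hi)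
      have hcard : h₂ < Y.card := hF.trans_le ((Finset.card_le_card hFY).trans Finset.card_image_le)
      obtain ⟨x, hx, y, hy, w, hw, z, hI⟩ := b2 Y hcard
      have hX' : ∀ x ∈ Y, bmk a x ∈ X := fun x hx =>
        (Finset.mem_filter.1 (Finset.mem_preimage.1 hx)).1
      refine ⟨bmk a x, hX' x hx, bmk a y, hX' y hy, bmk a w, hX' w hw, bmk a z, ?_⟩
      rw [bpos_bmk, bpos_bmk, bpos_bmk, bpos_bmk]
      exact In_pl hpos hk hI
    · exfalso
      have hsub : X.filter (fun i => bpi i = Sum.inr z) ⊆ {Sum.inr (Sum.inl z)} := by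
        intro i hi
        rw [Finset.mem_singleton]
        exact bpi_inr (Finset.mem_filter.1 hi).2
      have := Finset.card_le_card hsub
      rw [Finset.card_singleton] at this
      omega

/-- the blow-up lemma -/
lemma blow_fam [LinearOrder α₁] [LinearOrder α₂] [Finite α₁] [Finite α₂] [Finite κ₁] [Finite κ₂]
    [Nonempty α₂] {L₁ L₂ : ℝ} {h₁ h₂ : ℕ} (hL₁ : 0 ≤ L₁) (hh₂ : 1 ≤ h₂)
    (F1 : Fam α₁ κ₁ L₁ h₁) (F2 : Fam α₂ κ₂ L₂ h₂) :
    Fam (α₁ ×ₗ α₂) (κ₁ ⊕ (α₁ × κ₂)) (L₁ + 2) (h₁ * h₂) := by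
  intro θ hθ
  obtain ⟨P₁, hP₁⟩ := F1 (θ / 2) (by positivity)
  choose s hs1 hs2 hs3 using fun a => exists_slope hL₁ hP₁ a
  obtain ⟨k, hk, hkL, hk1, hk2⟩ := exists_flat (L₂ := L₂) hs2 hs3
  set θ₂ : ℝ := min (k * θ / 2) (k / (2 * (L₁ + 1))) with hθ₂
  have hθ₂pos : 0 < θ₂ := lt_min (by positivity) (by positivity)
  obtain ⟨P₂, hP₂⟩ := F2 θ₂ hθ₂pos
  have hfin : Finite (α₁ ×ₗ α₂) := inferInstanceAs (Finite (α₁ × α₂))
  have hlim := bpos_tendsto P₁ P₂ s k
  have hl1 : ∀ i, Tendsto (fun e => (bpos P₁ P₂ s k e i).1) (𝓝[>] 0) (𝓝 (P₁ (bpi i)).1) :=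
    fun i => (continuous_fst.tendsto _).comp (hlim i)
  have hl2 : ∀ i, Tendsto (fun e => (bpos P₁ P₂ s k e i).2) (𝓝[>] 0) (𝓝 (P₁ (bpi i)).2) :=
    fun i => (continuous_snd.tendsto _).comp (hlim i)
  have evp : ∀ᶠ e in 𝓝[>] (0:ℝ), e ∈ Ioi (0:ℝ) := self_mem_nhdsWithin
  -- differences in one blob
  have hdx : ∀ u v : α₂, u < v → 0 < (P₂ (Sum.inl v)).1 - (P₂ (Sum.inl u)).1 := fun u v huv => by
    have := hP₂.mono u v huv; linarith
  have ev1 : ∀ᶠ e in 𝓝[>] (0:ℝ), ∀ q r : α₁ ×ₗ α₂, q < r →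
      (bpos P₁ P₂ s k e (Sum.inl q)).1 < (bpos P₁ P₂ s k e (Sum.inl r)).1 := by
    rw [eventually_all]; intro q
    rw [eventually_all]; intro r
    by_cases hqr : q < r
    · rcases Prod.Lex.lt_iff.1 hqr with h | ⟨h, h'⟩
      · filter_upwards [(hl1 (Sum.inl q)).eventually_lt (hl1 (Sum.inl r)) (hP₁.mono _ _ h)] with e he _
        exact he
      · filter_upwards [evp] with e he _
        have he' : (0:ℝ) < e := he
        have h2 := hP₂.mono _ _ h'
        simp only [bpos, pl]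
        rw [h]
        nlinarith
    · exact Eventually.of_forall fun e h => absurd h hqr
  have ev2 : ∀ᶠ e in 𝓝[>] (0:ℝ), ∀ q r t : α₁ ×ₗ α₂, q < r → r < t →
      ori (bpos P₁ P₂ s k e (Sum.inl q)) (bpos P₁ P₂ s k e (Sum.inl r))
        (bpos P₁ P₂ s k e (Sum.inl t)) < 0 := by
    rw [eventually_all]; intro q
    rw [eventually_all]; intro r
    rw [eventually_all]; intro t
    by_cases hqr : q < r ∧ r < t
    · rcases Prod.Lex.lt_iff.1 hqr.1 with h | ⟨h, h'⟩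
      · rcases Prod.Lex.lt_iff.1 hqr.2 with g | ⟨g, g'⟩
        · filter_upwards [(tendsto_ori (hlim (Sum.inl q)) (hlim (Sum.inl r))
            (hlim (Sum.inl t))).eventually_lt_const (hP₁.cap _ _ _ h g)] with e he _ _
          exact he
        · -- q | r t
          have hnear := near_neg (hlim (Sum.inl q)) (A := P₁ (Sum.inl (ofLex r).1)) (s := s (ofLex r).1)
            (k := k) (x := P₂ (Sum.inl (ofLex r).2)) (y := P₂ (Sum.inl (ofLex t).2)) (by
              have d1 := hdx _ _ g'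
              have d2 := hP₂.slope _ _ g'
              have d3 := hk2 _ _ h
              have d4 : 0 < (P₁ (Sum.inl (ofLex r).1)).1 - (P₁ (Sum.inl (ofLex q).1)).1 := by
                have := hP₁.mono _ _ h; linarith
              have d5 := (abs_le.1 d2).2
              simp only [bpi]
              set dx := (P₂ (Sum.inl (ofLex t).2)).1 - (P₂ (Sum.inl (ofLex r).2)).1
              set dy := (P₂ (Sum.inl (ofLex t).2)).2 - (P₂ (Sum.inl (ofLex r).2)).2
              set DX := (P₁ (Sum.inl (ofLex r).1)).1 - (P₁ (Sum.inl (ofLex q).1)).1 with hDX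
              set DY := (P₁ (Sum.inl (ofLex r).1)).2 - (P₁ (Sum.inl (ofLex q).1)).2 with hDY
              have e1 : (P₁ (Sum.inl (ofLex q).1)).1 - (P₁ (Sum.inl (ofLex r).1)).1 = - DX := by
                rw [hDX]; ring
              have e2 : (P₁ (Sum.inl (ofLex q).1)).2 - (P₁ (Sum.inl (ofLex r).1)).2 = - DY := by
                rw [hDY]; ring
              rw [e1, e2]
              have f1 : k * dy * DX ≤ k * (L₂ * dx) * DX := by
                apply mul_le_mul_of_nonneg_right _ d4.le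
                exact mul_le_mul_of_nonneg_left d5 hk.le
              have f2 : dx * ((s (ofLex r).1 + k * L₂) * DX) < dx * DY := mul_lt_mul_of_pos_left d3 d1
              nlinarith)
          filter_upwards [hnear] with e he _ _
          rw [ori_cyc]
          simp only [bpos] at he ⊢
          rw [← g]
          exact he
      · rcases Prod.Lex.lt_iff.1 hqr.2 with g | ⟨g, g'⟩
        · -- q r | t
          have hnear := near_neg (hlim (Sum.inl t)) (A := P₁ (Sum.inl (ofLex q).1)) (s := s (ofLex q).1)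
            (k := k) (x := P₂ (Sum.inl (ofLex q).2)) (y := P₂ (Sum.inl (ofLex r).2)) (by
              rw [← h] at g
              have d1 := hdx _ _ h'
              have d2 := hP₂.slope _ _ h'
              have d3 := hk1 _ _ g
              have d4 : 0 < (P₁ (Sum.inl (ofLex t).1)).1 - (P₁ (Sum.inl (ofLex q).1)).1 := by
                have := hP₁.mono _ _ g; linarith
              have d5 := (abs_le.1 d2).1
              simp only [bpi]
              set dx := (P₂ (Sum.inl (ofLex r).2)).1 - (P₂ (Sum.inl (ofLex q).2)).1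
              set dy := (P₂ (Sum.inl (ofLex r).2)).2 - (P₂ (Sum.inl (ofLex q).2)).2
              set DX := (P₁ (Sum.inl (ofLex t).1)).1 - (P₁ (Sum.inl (ofLex q).1)).1
              set DY := (P₁ (Sum.inl (ofLex t).1)).2 - (P₁ (Sum.inl (ofLex q).1)).2
              have f1 : k * (-(L₂ * dx)) * DX ≤ k * dy * DX := by
                apply mul_le_mul_of_nonneg_right _ d4.le
                exact mul_le_mul_of_nonneg_left d5 hk.le
              have f2 : dx * DY < dx * ((s (ofLex q).1 - k * L₂) * DX) := mul_lt_mul_of_pos_left d3 d1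
              nlinarith)
          filter_upwards [hnear] with e he _ _
          simp only [bpos] at he ⊢
          rw [← h]
          exact he
        · filter_upwards [evp] with e he _ _
          have he' : (0:ℝ) < e := he
          simp only [bpos]
          rw [← g, ← h, ori_pl]
          exact mul_neg_of_pos_of_neg (by positivity) (hP₂.cap _ _ _ h' g')
    · exact Eventually.of_forall fun e h h' => absurd ⟨h, h'⟩ hqr
  have ev3 : ∀ᶠ e in 𝓝[>] (0:ℝ), ∀ q r : α₁ ×ₗ α₂, q < r →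
      |(bpos P₁ P₂ s k e (Sum.inl r)).2 - (bpos P₁ P₂ s k e (Sum.inl q)).2| ≤
        (L₁ + 2) * ((bpos P₁ P₂ s k e (Sum.inl r)).1 - (bpos P₁ P₂ s k e (Sum.inl q)).1) := by
    rw [eventually_all]; intro q
    rw [eventually_all]; intro r
    by_cases hqr : q < r
    · rcases Prod.Lex.lt_iff.1 hqr with h | ⟨h, h'⟩
      · have d1 := hP₁.slope _ _ h
        have d2 := hP₁.mono _ _ h
        have hlt : |(P₁ (Sum.inl (ofLex r).1)).2 - (P₁ (Sum.inl (ofLex q).1)).2| <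
            (L₁ + 2) * ((P₁ (Sum.inl (ofLex r).1)).1 - (P₁ (Sum.inl (ofLex q).1)).1) := by nlinarith
        filter_upwards [(((hl2 (Sum.inl r)).sub (hl2 (Sum.inl q))).abs).eventually_lt
          (((hl1 (Sum.inl r)).sub (hl1 (Sum.inl q))).const_mul (L₁ + 2)) hlt] with e he _
        exact he.le
      · filter_upwards [evp] with e he _
        have he' : (0:ℝ) < e := he
        have d1 := hdx _ _ h'
        have d2 := hP₂.slope _ _ h'
        simp only [bpos, pl]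
        rw [h]
        set dx := (P₂ (Sum.inl (ofLex r).2)).1 - (P₂ (Sum.inl (ofLex q).2)).1 with hdx'
        set dy := (P₂ (Sum.inl (ofLex r).2)).2 - (P₂ (Sum.inl (ofLex q).2)).2 with hdy'
        have e1 : (P₁ (Sum.inl (ofLex r).1)).2 + e * (s (ofLex r).1 * (P₂ (Sum.inl (ofLex r).2)).1 +
            k * (P₂ (Sum.inl (ofLex r).2)).2) - ((P₁ (Sum.inl (ofLex r).1)).2 +
            e * (s (ofLex r).1 * (P₂ (Sum.inl (ofLex q).2)).1 + k * (P₂ (Sum.inl (ofLex q).2)).2)) =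
            e * (s (ofLex r).1 * dx + k * dy) := by rw [hdx', hdy']; ring
        have e2 : (P₁ (Sum.inl (ofLex r).1)).1 + e * (P₂ (Sum.inl (ofLex r).2)).1 -
            ((P₁ (Sum.inl (ofLex r).1)).1 + e * (P₂ (Sum.inl (ofLex q).2)).1) = e * dx := by
          rw [hdx']; ring
        rw [e1, e2, abs_mul, abs_of_pos he']
        have f1 : |s (ofLex r).1 * dx + k * dy| ≤ (L₁ + 2) * dx := by
          calc _ ≤ |s (ofLex r).1 * dx| + |k * dy| := abs_add_le _ _
            _ = |s (ofLex r).1| * dx + k * |dy| := by rw [abs_mul, abs_mul, abs_of_pos d1, abs_of_pos hk]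
            _ ≤ (L₁ + 1) * dx + k * (L₂ * dx) := by
              gcongr
              exact hs1 _
            _ ≤ (L₁ + 2) * dx := by nlinarith
        calc e * |s (ofLex r).1 * dx + k * dy| ≤ e * ((L₁ + 2) * dx) := by gcongr
          _ = _ := by ring
    · exact Eventually.of_forall fun e h => absurd h hqr
  have ev4 : ∀ᶠ e in 𝓝[>] (0:ℝ), ∀ z : κ₁ ⊕ (α₁ × κ₂), ∃ q : α₁ ×ₗ α₂,
      (bpos P₁ P₂ s k e (Sum.inr z)).2 < (bpos P₁ P₂ s k e (Sum.inl q)).2 ∧
      |(bpos P₁ P₂ s k e (Sum.inl q)).1 - (bpos P₁ P₂ s k e (Sum.inr z)).1| ≤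
        θ * ((bpos P₁ P₂ s k e (Sum.inl q)).2 - (bpos P₁ P₂ s k e (Sum.inr z)).2) := by
    rw [eventually_all]; intro z
    rcases z with z | ⟨a, z⟩
    · obtain ⟨a, ha1, ha2⟩ := hP₁.cone z
      obtain ⟨u⟩ := ‹Nonempty α₂›
      have hlt2 : |(P₁ (Sum.inl a)).1 - (P₁ (Sum.inr z)).1| <
          θ * ((P₁ (Sum.inl a)).2 - (P₁ (Sum.inr z)).2) := by nlinarith
      filter_upwards [(hl2 (Sum.inr (Sum.inl z))).eventually_lt (hl2 (Sum.inl (toLex (a, u)))) ha1,
        (((hl1 (Sum.inl (toLex (a, u)))).sub (hl1 (Sum.inr (Sum.inl z)))).abs).eventually_lt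
          (((hl2 (Sum.inl (toLex (a, u)))).sub (hl2 (Sum.inr (Sum.inl z)))).const_mul θ) hlt2] with e he1 he2
      exact ⟨toLex (a, u), he1, he2.le⟩
    · obtain ⟨u, hu1, hu2⟩ := hP₂.cone z
      filter_upwards [evp] with e he
      have he' : (0:ℝ) < e := he
      refine ⟨toLex (a, u), ?_⟩
      simp only [bpos, pl, ofLex_toLex]
      set dx := (P₂ (Sum.inl u)).1 - (P₂ (Sum.inr z)).1 with hdx'
      set dy := (P₂ (Sum.inl u)).2 - (P₂ (Sum.inr z)).2 with hdy'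
      have hdy : 0 < dy := by rw [hdy']; linarith
      have e1 : (P₁ (Sum.inl a)).2 + e * (s a * (P₂ (Sum.inl u)).1 + k * (P₂ (Sum.inl u)).2) -
          ((P₁ (Sum.inl a)).2 + e * (s a * (P₂ (Sum.inr z)).1 + k * (P₂ (Sum.inr z)).2)) =
          e * (s a * dx + k * dy) := by rw [hdx', hdy']; ring
      have e2 : (P₁ (Sum.inl a)).1 + e * (P₂ (Sum.inl u)).1 -
          ((P₁ (Sum.inl a)).1 + e * (P₂ (Sum.inr z)).1) = e * dx := by
        rw [hdx']; ring
      have g1 : θ₂ ≤ k * θ / 2 := min_le_left _ _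
      have g2 : θ₂ ≤ k / (2 * (L₁ + 1)) := min_le_right _ _
      rw [le_div_iff₀ (by positivity)] at g2
      have g3 : |s a * dx| ≤ k / 2 * dy := by
        rw [abs_mul]
        calc |s a| * |dx| ≤ (L₁ + 1) * (θ₂ * dy) := by
              apply mul_le_mul (hs1 a) hu2 (abs_nonneg _) (by linarith)
          _ = (θ₂ * (2 * (L₁ + 1))) / 2 * dy := by ring
          _ ≤ k / 2 * dy := by gcongr
      have g4 : k / 2 * dy ≤ s a * dx + k * dy := by
        have := (abs_le.1 g3).1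
        linarith
      have g5 : 0 < k / 2 * dy := by positivity
      constructor
      · have : 0 < e * (s a * dx + k * dy) := mul_pos he' (by linarith)
        linarith
      · rw [e1, e2, abs_mul, abs_of_pos he']
        have : |dx| ≤ θ * (s a * dx + k * dy) := by
          calc |dx| ≤ θ₂ * dy := hu2
            _ ≤ k * θ / 2 * dy := by gcongr
            _ = θ * (k / 2 * dy) := by ring
            _ ≤ θ * (s a * dx + k * dy) := by gcongr
        calc e * |dx| ≤ e * (θ * (s a * dx + k * dy)) := by gcongr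
          _ = _ := by ring
  obtain ⟨e, he1, he2, he3, he4, he5⟩ := (ev1.and (ev2.and (ev3.and (ev4.and
    (blow_bd hh₂ hP₁.bd hP₂.bd s hk))))).exists
  exact ⟨bpos P₁ P₂ s k e, ⟨he1, he2, he3, he4, he5⟩⟩

end Pool.Agent.E8helper67.KH
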