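import Pool.Agent.E8helper67.KH.Final

/-!
Many holes in the final configuration.
-/

set_option autoImplicit false

open Filter Set
open scoped Topology

namespace Pool.Agent.E8helper67.KH

/-- every point can be strictly separated from the chosen points -/
def Cert {ι : Type} (Q : ι → ℝ × ℝ) (X : Finset ι) : Prop := ∀ z, ∃ n : ℝ × ℝ, ∀ x ∈ X, x ≠ z →
  0 < n.1 * ((Q x).1 - (Q z).1) + n.2 * ((Q x).2 - (Q z).2)

lemma Cert.eventually {l : Filter ℝ} {ι : Type} [Finite ι] {Q : ι → ℝ × ℝ} {X : Finset ι} (hP : Cert Q X)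
    {Q' : ℝ → ι → ℝ × ℝ} (h : ∀ i, Tendsto (fun e => Q' e i) l (𝓝 (Q i))) :
    ∀ᶠ e in l, Cert (Q' e) X := by
  unfold Cert
  rw [eventually_all]; intro z
  obtain ⟨n, hn⟩ := hP z
  have hx : ∀ x : ι, ∀ᶠ e in l, x ∈ X → x ≠ z →
      0 < n.1 * ((Q' e x).1 - (Q' e z).1) + n.2 * ((Q' e x).2 - (Q' e z).2) := by
    intro x
    by_cases hxz : x ∈ X ∧ x ≠ z
    · have h1 : ∀ i, Tendsto (fun e => (Q' e i).1) l (𝓝 (Q i).1) := fun i =>
        (continuous_fst.tendsto _).comp (h i)
      have h2 : ∀ i, Tendsto (fun e => (Q' e i).2) l (𝓝 (Q i).2) := fun i =>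
        (continuous_snd.tendsto _).comp (h i)
      have := ((((h1 x).sub (h1 z)).const_mul n.1).add (((h2 x).sub (h2 z)).const_mul n.2)).eventually_const_lt
        (hn x hxz.1 hxz.2)
      filter_upwards [this] with e he _ _
      exact he
    · exact Eventually.of_forall fun e h1 h2 => absurd ⟨h1, h2⟩ hxz
  filter_upwards [eventually_all.2 hx] with e he
  exact ⟨n, fun x h1 h2 => he x h1 h2⟩

variable {u₁ u₂ s m c : ℕ}

/-- first top of a pair -/
def ft (t : Fin (m - 1)) : Fin m := ⟨t, by omega⟩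

/-- second top of a pair -/
def st (t : Fin (m - 1)) : Fin m := ⟨t + 1, by omega⟩

lemma ft_lt_st (t : Fin (m - 1)) : ft t < st t := by
  unfold ft st; rw [Fin.mk_lt_mk]; omega

/-- all other points are strictly below the line of two adjacent tops -/
lemma adj {P : Fin m ⊕ Fin c → ℝ × ℝ} {θ L : ℝ} {h : ℕ} (hP : IsBlob P θ L h)
    (hLθ : L * θ < 1) (t : Fin (m - 1)) (w : Fin m ⊕ Fin c) (h1 : w ≠ Sum.inl (ft t))
    (h2 : w ≠ Sum.inl (st t)) : ori (P (Sum.inl (ft t))) (P (Sum.inl (st t))) (P w) < 0 := by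
  have key : ∀ v : Fin m, v ≠ ft t → v ≠ st t →
      ori (P (Sum.inl (ft t))) (P (Sum.inl (st t))) (P (Sum.inl v)) < 0 := by
    intro v hv1 hv2
    have hcase : v < ft t ∨ st t < v := by
      have a1 : (v : ℕ) ≠ t := fun h => hv1 (Fin.ext h)
      have a2 : (v : ℕ) ≠ t + 1 := fun h => hv2 (Fin.ext h)
      rcases Nat.lt_or_ge v t with h | h
      · left; exact h
      · right
        show (t : ℕ) + 1 < v
        omega
    rcases hcase with h | h
    · rw [ori_cyc']
      exact hP.cap v (ft t) (st t) h (ft_lt_st t)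
    · exact hP.cap (ft t) (st t) v (ft_lt_st t) h
  rcases w with v | z
  · exact key v (fun h => h1 (by rw [h])) (fun h => h2 (by rw [h]))
  · obtain ⟨b, hb1, hb2⟩ := hP.cone z
    have hle : ori (P (Sum.inl (ft t))) (P (Sum.inl (st t))) (P (Sum.inl b)) ≤ 0 := by
      by_cases e1 : b = ft t
      · rw [e1]; unfold ori; ring_nf; exact le_refl _
      · by_cases e2 : b = st t
        · rw [e2]; unfold ori; ring_nf; exact le_refl _
        · exact (key b e1 e2).le
    have hdx := hP.mono (ft t) (st t) (ft_lt_st t)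
    have hdy := hP.slope (ft t) (st t) (ft_lt_st t)
    have e : ori (P (Sum.inl (ft t))) (P (Sum.inl (st t))) (P (Sum.inr z)) =
        ori (P (Sum.inl (ft t))) (P (Sum.inl (st t))) (P (Sum.inl b)) +
        (- ((P (Sum.inl (st t))).1 - (P (Sum.inl (ft t))).1) * ((P (Sum.inl b)).2 - (P (Sum.inr z)).2) +
          ((P (Sum.inl (st t))).2 - (P (Sum.inl (ft t))).2) * ((P (Sum.inl b)).1 - (P (Sum.inr z)).1)) := by
      unfold ori; ring
    rw [e]
    set dx := (P (Sum.inl (st t))).1 - (P (Sum.inl (ft t))).1 with hdx'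
    set dy := (P (Sum.inl (st t))).2 - (P (Sum.inl (ft t))).2
    set ex := (P (Sum.inl b)).1 - (P (Sum.inr z)).1
    set ey := (P (Sum.inl b)).2 - (P (Sum.inr z)).2 with hey
    have hdx0 : 0 < dx := by rw [hdx']; linarith
    have hey0 : 0 < ey := by rw [hey]; linarith
    have h3 : dy * ex ≤ (L * dx) * (θ * ey) := by
      calc dy * ex ≤ |dy * ex| := le_abs_self _
        _ = |dy| * |ex| := abs_mul _ _
        _ ≤ (L * dx) * (θ * ey) := by
          apply mul_le_mul hdy hb2 (abs_nonneg _)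
          exact (abs_nonneg _).trans hdy
    have h4 : (L * dx) * (θ * ey) < dx * ey := by
      have : (L * dx) * (θ * ey) = (L * θ) * (dx * ey) := by ring
      rw [this]
      have h5 : 0 < dx * ey := by positivity
      nlinarith
    linarith

/-- embedding of the index type of a chosen set -/
def emb (a : Fin s → Fin (m - 1)) : Fin u₁ ⊕ Fin u₂ ⊕ (Fin s × Fin 2) → Jx u₁ u₂ s (Fin m ⊕ Fin c)
  | Sum.inl i => Sum.inl i
  | Sum.inr (Sum.inl i) => Sum.inr (Sum.inl i)
  | Sum.inr (Sum.inr q) => Sum.inr (Sum.inr (q.1, Sum.inl (if q.2 = 0 then ft (a q.1) else st (a q.1))))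

lemma emb_inj (a : Fin s → Fin (m - 1)) :
    Function.Injective (emb a : Fin u₁ ⊕ Fin u₂ ⊕ (Fin s × Fin 2) → Jx u₁ u₂ s (Fin m ⊕ Fin c)) := by
  intro x y h
  rcases x with x | x | ⟨x, p⟩ <;> rcases y with y | y | ⟨y, q⟩ <;>
    simp only [emb, Sum.inl.injEq, Sum.inr.injEq, reduceCtorEq, Prod.mk.injEq] at h ⊢
  · exact h
  · exact h
  · obtain ⟨h1, h2⟩ := h
    subst h1
    refine ⟨rfl, ?_⟩
    have hne := (ft_lt_st (a x)).ne
    by_cases hp : p = 0 <;> by_cases hq : q = 0
    · rw [hp, hq]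
    · rw [if_pos hp, if_neg hq] at h2
      exact absurd h2 hne
    · rw [if_neg hp, if_pos hq] at h2
      exact absurd h2.symm hne
    · omega

/-- the chosen set -/
def Xa (a : Fin s → Fin (m - 1)) : Finset (Jx u₁ u₂ s (Fin m ⊕ Fin c)) :=
  Finset.univ.image (emb a)

lemma Xa_card (a : Fin s → Fin (m - 1)) :
    (Xa a : Finset (Jx u₁ u₂ s (Fin m ⊕ Fin c))).card = u₁ + u₂ + 2 * s := by
  unfold Xa
  rw [Finset.card_image_of_injective _ (emb_inj a), Finset.card_univ]
  simp only [Fintype.card_sum, Fintype.card_prod, Fintype.card_fin]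
  ring

lemma mem_Xa_blob {a : Fin s → Fin (m - 1)} {i : Fin s} {w : Fin m ⊕ Fin c} :
    (Sum.inr (Sum.inr (i, w)) : Jx u₁ u₂ s (Fin m ⊕ Fin c)) ∈ Xa a ↔
      w = Sum.inl (ft (a i)) ∨ w = Sum.inl (st (a i)) := by
  unfold Xa
  rw [Finset.mem_image]
  constructor
  · rintro ⟨x, _, hx⟩
    rcases x with x | x | ⟨x, p⟩ <;>
      simp only [emb, Sum.inr.injEq, reduceCtorEq, Prod.mk.injEq] at hx
    obtain ⟨h1, h2⟩ := hx
    subst h1
    by_cases hp : p = 0
    · rw [if_pos hp] at h2; left; exact h2.symm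
    · rw [if_neg hp] at h2; right; exact h2.symm
  · rintro (h | h)
    · exact ⟨Sum.inr (Sum.inr (i, 0)), Finset.mem_univ _, by simp [emb, h]⟩
    · exact ⟨Sum.inr (Sum.inr (i, 1)), Finset.mem_univ _, by simp [emb, h]⟩

lemma Xa_inj : Function.Injective
    (Xa : (Fin s → Fin (m - 1)) → Finset (Jx u₁ u₂ s (Fin m ⊕ Fin c))) := by
  intro a b hab
  funext i
  have h1 : (Sum.inr (Sum.inr (i, Sum.inl (ft (a i)))) : Jx u₁ u₂ s (Fin m ⊕ Fin c)) ∈ Xa b := by
    rw [← hab, mem_Xa_blob]; left; rfl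
  have h2 : (Sum.inr (Sum.inr (i, Sum.inl (st (a i)))) : Jx u₁ u₂ s (Fin m ⊕ Fin c)) ∈ Xa b := by
    rw [← hab, mem_Xa_blob]; right; rfl
  rw [mem_Xa_blob] at h1 h2
  simp only [Sum.inl.injEq, ft, st, Fin.mk.injEq] at h1 h2
  apply Fin.ext
  omega

/-- certificates in the final configuration -/
lemma cert_final {P : Fin m ⊕ Fin c → ℝ × ℝ} {θ L k : ℝ} {h : ℕ} (hP : IsBlob P θ L h) (hk : 0 < k)
    (hkL : k * L < 1) (hLθ : L * θ < 1) :
    ∀ᶠ e in 𝓝[>] (0:ℝ), ∀ a : Fin s → Fin (m - 1),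
      Cert (Qf P k e : Jx u₁ u₂ s (Fin m ⊕ Fin c) → ℝ × ℝ) (Xa a) := by
  classical
  rw [eventually_all]; intro a
  unfold Cert
  rw [eventually_all]; intro z
  have evp : ∀ᶠ e in 𝓝[>] (0:ℝ), e ∈ Ioi (0:ℝ) := self_mem_nhdsWithin
  -- it suffices to treat every `x` separately
  suffices hs : ∃ n : ℝ × ℝ, ∀ x ∈ (Xa a : Finset (Jx u₁ u₂ s (Fin m ⊕ Fin c))), x ≠ z →
      ∀ᶠ e in 𝓝[>] (0:ℝ), 0 < n.1 * ((Qf P k e x).1 - (Qf P k e z).1) +
        n.2 * ((Qf P k e x).2 - (Qf P k e z).2) by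
    obtain ⟨n, hn⟩ := hs
    have hx : ∀ x : Jx u₁ u₂ s (Fin m ⊕ Fin c), ∀ᶠ e in 𝓝[>] (0:ℝ), x ∈ (Xa a) → x ≠ z →
        0 < n.1 * ((Qf P k e x).1 - (Qf P k e z).1) + n.2 * ((Qf P k e x).2 - (Qf P k e z).2) := by
      intro x
      by_cases hxz : x ∈ (Xa a) ∧ x ≠ z
      · filter_upwards [hn x hxz.1 hxz.2] with e he _ _
        exact he
      · exact Eventually.of_forall fun e h1 h2 => absurd ⟨h1, h2⟩ hxz
    filter_upwards [eventually_all.2 hx] with e he
    exact ⟨n, fun x h1 h2 => he x h1 h2⟩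
  -- points at other positions are handled by limits
  have hlim : ∀ (n : ℝ × ℝ) (x : Jx u₁ u₂ s (Fin m ⊕ Fin c)),
      0 < n.1 * ((cpt (ppos x)).1 - (cpt (ppos z)).1) + n.2 * ((cpt (ppos x)).2 - (cpt (ppos z)).2) →
      ∀ᶠ e in 𝓝[>] (0:ℝ), 0 < n.1 * ((Qf P k e x).1 - (Qf P k e z).1) +
        n.2 * ((Qf P k e x).2 - (Qf P k e z).2) := by
    intro n x hx
    have h1 : ∀ i : Jx u₁ u₂ s (Fin m ⊕ Fin c), Tendsto (fun e => (Qf P k e i).1) (𝓝[>] 0)
        (𝓝 (cpt (ppos i)).1) := fun i => (continuous_fst.tendsto _).comp (Qf_tendsto P k i)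
    have h2 : ∀ i : Jx u₁ u₂ s (Fin m ⊕ Fin c), Tendsto (fun e => (Qf P k e i).2) (𝓝[>] 0)
        (𝓝 (cpt (ppos i)).2) := fun i => (continuous_snd.tendsto _).comp (Qf_tendsto P k i)
    exact ((((h1 x).sub (h1 z)).const_mul n.1).add (((h2 x).sub (h2 z)).const_mul n.2)).eventually_const_lt hx
  -- single points
  have hsingle : (∀ x : Jx u₁ u₂ s (Fin m ⊕ Fin c), x ≠ z → ppos x ≠ ppos z) →
      ∃ n : ℝ × ℝ, ∀ x ∈ (Xa a : Finset (Jx u₁ u₂ s (Fin m ⊕ Fin c))), x ≠ z →
      ∀ᶠ e in 𝓝[>] (0:ℝ), 0 < n.1 * ((Qf P k e x).1 - (Qf P k e z).1) +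
        n.2 * ((Qf P k e x).2 - (Qf P k e z).2) := by
    intro hz
    refine ⟨(-2 * ((ppos z : ℤ) : ℝ), 1), fun x _ hxz => hlim _ x ?_⟩
    have h1 : ((ppos x : ℤ) : ℝ) - ((ppos z : ℤ) : ℝ) ≠ 0 := by
      rw [sub_ne_zero]
      exact_mod_cast hz x hxz
    have h2 : 0 < (((ppos x : ℤ) : ℝ) - ((ppos z : ℤ) : ℝ)) ^ 2 := by positivity
    unfold cpt
    simp only
    nlinarith
  rcases z with z | z | ⟨i, w⟩
  · apply hsingle
    intro x hx
    rcases x with x | x | x <;> simp only [ppos]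
    · intro hc
      apply hx
      have : x = z := Fin.ext (by omega)
      rw [this]
    · omega
    · omega
  · apply hsingle
    intro x hx
    rcases x with x | x | x <;> simp only [ppos]
    · omega
    · intro hc
      apply hx
      have : x = z := Fin.ext (by omega)
      rw [this]
    · have := x.1.2
      omega
  · -- a blob point
    set b0 := P (Sum.inl (ft (a i))) with hb0
    set b1 := P (Sum.inl (st (a i))) with hb1
    set dx := b1.1 - b0.1 with hdx
    set dy := b1.2 - b0.2 with hdy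
    have hdx0 : 0 < dx := by
      have := hP.mono _ _ (ft_lt_st (a i))
      rw [hdx]; linarith
    have hdyL : |dy| ≤ L * dx := hP.slope _ _ (ft_lt_st (a i))
    set I : ℝ := (((i : ℕ) : ℤ) : ℝ) with hI
    -- the functional
    have hother : ∀ τ : ℝ, |τ| < dx * (1 - k * L) → ∀ x : Jx u₁ u₂ s (Fin m ⊕ Fin c),
        ppos x ≠ ((i : ℕ) : ℤ) → 0 < (-(2 * I * dx + k * dy) + τ) *
          ((cpt (ppos x)).1 - (cpt ((i : ℕ) : ℤ)).1) + dx * ((cpt (ppos x)).2 - (cpt ((i : ℕ) : ℤ)).2) := by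
      intro τ hτ x hx
      set D : ℝ := ((ppos x - ((i : ℕ) : ℤ) : ℤ) : ℝ) with hD
      have hD1 : 1 ≤ |D| := by
        have : 1 ≤ |ppos x - ((i : ℕ) : ℤ)| := Int.one_le_abs (sub_ne_zero.2 hx)
        rw [hD]
        exact_mod_cast this
      have e : (-(2 * I * dx + k * dy) + τ) * ((cpt (ppos x)).1 - (cpt ((i : ℕ) : ℤ)).1) +
          dx * ((cpt (ppos x)).2 - (cpt ((i : ℕ) : ℤ)).2) = dx * (D * D) - (k * dy - τ) * D := by
        rw [hD, hI]; unfold cpt; push_cast; ring
      rw [e, ← abs_mul_abs_self D]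
      have f1 : (k * dy - τ) * D ≤ (k * (L * dx) + |τ|) * |D| := by
        calc (k * dy - τ) * D ≤ |(k * dy - τ) * D| := le_abs_self _
          _ = |k * dy - τ| * |D| := abs_mul _ _
          _ ≤ (k * (L * dx) + |τ|) * |D| := by
            apply mul_le_mul_of_nonneg_right _ (abs_nonneg _)
            calc |k * dy - τ| ≤ |k * dy| + |τ| := abs_sub _ _
              _ = k * |dy| + |τ| := by rw [abs_mul, abs_of_pos hk]
              _ ≤ k * (L * dx) + |τ| := by gcongr
      have f2 : (k * (L * dx) + |τ|) * |D| < dx * |D| := by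
        apply mul_lt_mul_of_pos_right _ (by linarith)
        linarith
      have f3 : dx * |D| ≤ dx * (|D| * |D|) := by
        apply mul_le_mul_of_nonneg_left _ hdx0.le
        nlinarith
      linarith
    -- a point of the same blob
    have hsame : ∀ (τ e : ℝ) (v : Fin m ⊕ Fin c), (-(2 * I * dx + k * dy) + τ) *
          ((Qf P k e (Sum.inr (Sum.inr (i, v)) : Jx u₁ u₂ s (Fin m ⊕ Fin c))).1 -
            (Qf P k e (Sum.inr (Sum.inr (i, w)) : Jx u₁ u₂ s (Fin m ⊕ Fin c))).1) +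
          dx * ((Qf P k e (Sum.inr (Sum.inr (i, v)) : Jx u₁ u₂ s (Fin m ⊕ Fin c))).2 -
            (Qf P k e (Sum.inr (Sum.inr (i, w)) : Jx u₁ u₂ s (Fin m ⊕ Fin c))).2) =
          e * (k * (dx * ((P v).2 - (P w).2) - dy * ((P v).1 - (P w).1)) + τ * ((P v).1 - (P w).1)) := by
      intro τ e v
      simp only [Qf, pl]
      rw [← hI]
      ring
    have hgap : 0 < dx * (1 - k * L) := mul_pos hdx0 (by linarith)
    have hfin : ∀ τ : ℝ, |τ| < dx * (1 - k * L) →
        (∀ v : Fin m ⊕ Fin c, (v = Sum.inl (ft (a i)) ∨ v = Sum.inl (st (a i))) → v ≠ w →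
          0 < k * (dx * ((P v).2 - (P w).2) - dy * ((P v).1 - (P w).1)) + τ * ((P v).1 - (P w).1)) →
        ∃ n : ℝ × ℝ, ∀ x ∈ (Xa a : Finset (Jx u₁ u₂ s (Fin m ⊕ Fin c))), x ≠ Sum.inr (Sum.inr (i, w)) →
      ∀ᶠ e in 𝓝[>] (0:ℝ), 0 < n.1 * ((Qf P k e x).1 -
        (Qf P k e (Sum.inr (Sum.inr (i, w)) : Jx u₁ u₂ s (Fin m ⊕ Fin c))).1) +
        n.2 * ((Qf P k e x).2 - (Qf P k e (Sum.inr (Sum.inr (i, w)) : Jx u₁ u₂ s (Fin m ⊕ Fin c))).2) := by
      intro τ hτ hv
      refine ⟨(-(2 * I * dx + k * dy) + τ, dx), fun x hx hxz => ?_⟩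
      by_cases hp : ppos x = ((i : ℕ) : ℤ)
      · obtain ⟨v, rfl⟩ : ∃ v, x = Sum.inr (Sum.inr (i, v)) := by
          rcases x with x | x | ⟨x, v⟩
          · simp only [ppos] at hp; omega
          · simp only [ppos] at hp
            have := i.2
            omega
          · simp only [ppos] at hp
            have : x = i := Fin.ext (by omega)
            exact ⟨v, by rw [this]⟩
        rw [mem_Xa_blob] at hx
        have hvw : v ≠ w := by
          rintro rfl
          exact hxz rfl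
        filter_upwards [evp] with e he
        have he' : (0:ℝ) < e := he
        rw [hsame]
        exact mul_pos he' (hv v hx hvw)
      · exact hlim _ x (hother τ hτ x hp)
    by_cases hw1 : w = Sum.inl (ft (a i))
    · apply hfin (dx * (1 - k * L) / 2)
      · rw [abs_of_pos (by linarith)]; linarith
      · intro v hv hvw
        have hv' : v = Sum.inl (st (a i)) := by
          rcases hv with h | h
          · exact absurd (h.trans hw1.symm) hvw
          · exact h
        rw [hv', hw1, ← hb0, ← hb1, ← hdx, ← hdy]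
        have : 0 < dx * (1 - k * L) / 2 * dx := by positivity
        nlinarith
    · by_cases hw2 : w = Sum.inl (st (a i))
      · apply hfin (-(dx * (1 - k * L) / 2))
        · rw [abs_neg, abs_of_pos (by linarith)]; linarith
        · intro v hv hvw
          have hv' : v = Sum.inl (ft (a i)) := by
            rcases hv with h | h
            · exact h
            · exact absurd (h.trans hw2.symm) hvw
          rw [hv', hw2, ← hb0, ← hb1]
          have e1 : b0.1 - b1.1 = - dx := by rw [hdx]; ring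
          have e2 : b0.2 - b1.2 = - dy := by rw [hdy]; ring
          rw [e1, e2]
          have : 0 < dx * (1 - k * L) / 2 * dx := by positivity
          nlinarith
      · apply hfin 0
        · rw [abs_zero]; exact hgap
        · intro v hv _
          have ho := adj hP hLθ (a i) w hw1 hw2
          rw [← hb0, ← hb1] at ho
          unfold ori at ho
          rw [← hdx, ← hdy] at ho
          rw [zero_mul, add_zero]
          apply mul_pos hk
          rcases hv with h | h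
          · rw [h, ← hb0]; linarith
          · rw [h, ← hb1]
            have e1 : b1.1 = b0.1 + dx := by rw [hdx]; ring
            have e2 : b1.2 = b0.2 + dy := by rw [hdy]; ring
            rw [e1, e2]
            nlinarith

end Pool.Agent.E8helper67.KH
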