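import Pool.Agent.E8helper67.KH.Line

/-!
The height function on the lattice: along every primitive line it is of Horton type.
-/

set_option autoImplicit false

open Filter Set
open scoped Topology

namespace Pool.Agent.E8helper67.KH

/-- the pair of binary digits at place `k` -/
def dc (k : ℕ) (p : ℤ × ℤ) : ℤ := (p.1 / 2 ^ k) % 2 + 2 * ((p.2 / 2 ^ k) % 2)

/-- the height function -/
noncomputable def hh (lam : ℝ) (T : ℕ) (p : ℤ × ℤ) : ℝ := ∑ k ∈ Finset.range T, lam ^ k * (dc k p : ℝ)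

lemma dc_nonneg (k : ℕ) (p : ℤ × ℤ) : 0 ≤ dc k p ∧ dc k p ≤ 3 := by
  unfold dc
  omega

lemma dig_same (k : ℕ) (x m : ℤ) : ((x + 2 ^ (k + 1) * m) / 2 ^ k) % 2 = (x / 2 ^ k) % 2 := by
  have e : x + 2 ^ (k + 1) * m = x + (2 * m) * 2 ^ k := by ring
  rw [e, Int.add_mul_ediv_right _ _ (by positivity)]
  omega

lemma dig_flip (k : ℕ) (x m : ℤ) : ((x + 2 ^ k * m) / 2 ^ k) % 2 = (x / 2 ^ k + m) % 2 := by
  have e : x + 2 ^ k * m = x + m * 2 ^ k := by ring
  rw [e, Int.add_mul_ediv_right _ _ (by positivity)]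

/-- points of a line -/
def lpt (p : ℤ × ℤ) (u v t : ℤ) : ℤ × ℤ := (p.1 + t * u, p.2 + t * v)

lemma dc_same (p : ℤ × ℤ) (u v : ℤ) (k : ℕ) (t t' : ℤ) (h : t ≡ t' [ZMOD 2 ^ (k + 1)]) :
    dc k (lpt p u v t) = dc k (lpt p u v t') := by
  obtain ⟨m, hm⟩ := Int.modEq_iff_dvd.1 h
  have ht : t' = t + 2 ^ (k + 1) * m := by rw [← hm]; ring
  unfold dc lpt
  simp only
  have e1 : p.1 + t' * u = (p.1 + t * u) + 2 ^ (k + 1) * (m * u) := by rw [ht]; ring
  have e2 : p.2 + t' * v = (p.2 + t * v) + 2 ^ (k + 1) * (m * v) := by rw [ht]; ring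
  rw [e1, e2, dig_same, dig_same]

lemma dc_diff (p : ℤ × ℤ) {u v : ℤ} (huv : IsCoprime u v) (k : ℕ) (t t' : ℤ) (h : t ≡ t' [ZMOD 2 ^ k])
    (h' : ¬ t ≡ t' [ZMOD 2 ^ (k + 1)]) : dc k (lpt p u v t) ≠ dc k (lpt p u v t') := by
  obtain ⟨m, hm⟩ := Int.modEq_iff_dvd.1 h
  have hmo : m % 2 = 1 := by
    by_contra hc
    apply h'
    rw [Int.modEq_iff_dvd, hm, pow_succ]
    exact mul_dvd_mul_left _ (by omega)
  have ht : t' = t + 2 ^ k * m := by rw [← hm]; ring
  unfold dc lpt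
  simp only
  have e1 : p.1 + t' * u = (p.1 + t * u) + 2 ^ k * (m * u) := by rw [ht]; ring
  have e2 : p.2 + t' * v = (p.2 + t * v) + 2 ^ k * (m * v) := by rw [ht]; ring
  rw [e1, e2, dig_flip, dig_flip]
  have hodd : u % 2 = 1 ∨ v % 2 = 1 := by
    by_contra hc
    push Not at hc
    obtain ⟨a, b, hab⟩ := huv
    have h1 : (2:ℤ) ∣ a * u + b * v := dvd_add (Dvd.dvd.mul_left (by omega) _) (Dvd.dvd.mul_left (by omega) _)
    rw [hab] at h1
    omega
  have hmu : (m * u) % 2 = u % 2 := by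
    rw [Int.mul_emod, hmo, one_mul, Int.emod_emod_of_dvd _ (dvd_refl _)]
  have hmv : (m * v) % 2 = v % 2 := by
    rw [Int.mul_emod, hmo, one_mul, Int.emod_emod_of_dvd _ (dvd_refl _)]
  omega

lemma sum_bound {lam M : ℝ} (h0 : 0 ≤ lam) (h1 : lam ≤ 1 / 2) : ∀ (n : ℕ) (a : ℕ → ℝ),
    (∀ k, |a k| ≤ M) → |∑ k ∈ Finset.range n, lam ^ k * a k| ≤ 2 * M := by
  intro n
  induction n with
  | zero =>
    intro a ha
    have := (abs_nonneg _).trans (ha 0)
    simp only [Finset.range_zero, Finset.sum_empty, abs_zero]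
    linarith
  | succ n ih =>
    intro a ha
    rw [Finset.sum_range_succ', pow_zero, one_mul]
    have e : ∑ k ∈ Finset.range n, lam ^ (k + 1) * a (k + 1) =
        lam * ∑ k ∈ Finset.range n, lam ^ k * a (k + 1) := by
      rw [Finset.mul_sum]
      exact Finset.sum_congr rfl fun k _ => by ring
    rw [e]
    have h2 := ih (fun k => a (k + 1)) (fun k => ha _)
    have hM := (abs_nonneg _).trans (ha 0)
    calc _ ≤ |lam * ∑ k ∈ Finset.range n, lam ^ k * a (k + 1)| + |a 0| := abs_add_le _ _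
      _ = lam * |∑ k ∈ Finset.range n, lam ^ k * a (k + 1)| + |a 0| := by
        rw [abs_mul, abs_of_nonneg h0]
      _ ≤ 1 / 2 * (2 * M) + M := by gcongr; exact ha 0
      _ = 2 * M := by ring

lemma first_pos {lam M : ℝ} (h0 : 0 < lam) (h1 : lam ≤ 1 / 2) (h2 : 2 * M * lam < 1) :
    ∀ (K n : ℕ) (a : ℕ → ℝ), (∀ k, |a k| ≤ M) → (∀ k < K, a k = 0) → 1 ≤ a K → K < n →
      0 < ∑ k ∈ Finset.range n, lam ^ k * a k := by
  intro K
  induction K with
  | zero =>
    intro n a ha _ h3 hn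
    obtain ⟨n, rfl⟩ : ∃ m, n = m + 1 := ⟨n - 1, by omega⟩
    rw [Finset.sum_range_succ', pow_zero, one_mul]
    have e : ∑ k ∈ Finset.range n, lam ^ (k + 1) * a (k + 1) =
        lam * ∑ k ∈ Finset.range n, lam ^ k * a (k + 1) := by
      rw [Finset.mul_sum]
      exact Finset.sum_congr rfl fun k _ => by ring
    rw [e]
    have h4 := sum_bound h0.le h1 n (fun k => a (k + 1)) (fun k => ha _)
    have h5 : |lam * ∑ k ∈ Finset.range n, lam ^ k * a (k + 1)| ≤ lam * (2 * M) := by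
      rw [abs_mul, abs_of_pos h0]
      exact mul_le_mul_of_nonneg_left h4 h0.le
    have h6 := (abs_le.1 h5).1
    linarith
  | succ K ih =>
    intro n a ha h3 h4 hn
    obtain ⟨n, rfl⟩ : ∃ m, n = m + 1 := ⟨n - 1, by omega⟩
    rw [Finset.sum_range_succ', pow_zero, one_mul, h3 0 (by omega), add_zero]
    have e : ∑ k ∈ Finset.range n, lam ^ (k + 1) * a (k + 1) =
        lam * ∑ k ∈ Finset.range n, lam ^ k * a (k + 1) := by
      rw [Finset.mul_sum]
      exact Finset.sum_congr rfl fun k _ => by ring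
    rw [e]
    exact mul_pos h0 (ih n (fun k => a (k + 1)) (fun k => ha _) (fun k hk => h3 _ (by omega)) h4 (by omega))

/-- orientation of three points of a line, as a sum over the places -/
lemma ori_sum (lam : ℝ) (T : ℕ) (c : ℕ → ℤ → ℤ) (t1 t2 t3 : ℤ) :
    ori (gp (fun t => ∑ k ∈ Finset.range T, lam ^ k * (c k t : ℝ)) t1)
      (gp (fun t => ∑ k ∈ Finset.range T, lam ^ k * (c k t : ℝ)) t2)
      (gp (fun t => ∑ k ∈ Finset.range T, lam ^ k * (c k t : ℝ)) t3) =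
    ∑ k ∈ Finset.range T, lam ^ k *
      (((t2 : ℝ) - t1) * ((c k t3 : ℝ) - c k t2) + ((t3 : ℝ) - t2) * ((c k t1 : ℝ) - c k t2)) := by
  unfold ori gp
  simp only
  rw [← Finset.sum_sub_distrib, ← Finset.sum_sub_distrib, Finset.mul_sum, Finset.sum_mul,
    ← Finset.sum_sub_distrib]
  refine Finset.sum_congr rfl fun k _ => ?_
  ring

lemma lev_line (p : ℤ × ℤ) {u v : ℤ} (huv : IsCoprime u v) {T : ℕ} {A B : ℤ} (hAB : B - A < 2 ^ T)
    {lam : ℝ} (h0 : 0 < lam) (h1 : lam ≤ 1 / 2) (h2 : 2 * (3 * 2 ^ T) * lam < 1) :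
    Lev (fun k t => dc k (lpt p u v t)) (fun t => hh lam T (lpt p u v t)) (Icc A B) := by
  have key : ∀ (s : ℝ), (s = 1 ∨ s = -1) → ∀ (k : ℕ) (t1 t2 t3 : ℤ), t1 ∈ Icc A B → t2 ∈ Icc A B →
      t3 ∈ Icc A B → t1 < t2 → t2 < t3 → t1 ≡ t2 [ZMOD 2 ^ k] → t2 ≡ t3 [ZMOD 2 ^ k] →
      1 ≤ s * (((t2 : ℝ) - t1) * ((dc k (lpt p u v t3) : ℝ) - dc k (lpt p u v t2)) +
        ((t3 : ℝ) - t2) * ((dc k (lpt p u v t1) : ℝ) - dc k (lpt p u v t2))) →
      0 < s * ori (gp (fun t => hh lam T (lpt p u v t)) t1) (gp (fun t => hh lam T (lpt p u v t)) t2)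
        (gp (fun t => hh lam T (lpt p u v t)) t3) := by
    intro s hs k t1 t2 t3 i1 i2 i3 l1 l2 e1 e2 hone
    unfold hh
    rw [ori_sum lam T (fun k t => dc k (lpt p u v t)), Finset.mul_sum]
    have hkT : k < T := by
      by_contra hc
      have hd : (2:ℤ) ^ k ∣ t2 - t1 := Int.modEq_iff_dvd.1 e1
      have h3 := Int.le_of_dvd (by omega) hd
      have h4 : (2:ℤ) ^ T ≤ 2 ^ k := pow_le_pow_right₀ (by norm_num) (by omega)
      rw [mem_Icc] at i1 i2
      omega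
    have hbd : ∀ j : ℕ, |s * (((t2 : ℝ) - t1) * ((dc j (lpt p u v t3) : ℝ) - dc j (lpt p u v t2)) +
        ((t3 : ℝ) - t2) * ((dc j (lpt p u v t1) : ℝ) - dc j (lpt p u v t2)))| ≤ 3 * 2 ^ T := by
      intro j
      have hs1 : |s| = 1 := by rcases hs with rfl | rfl <;> simp
      rw [abs_mul, hs1, one_mul]
      have d1 := dc_nonneg j (lpt p u v t1)
      have d2 := dc_nonneg j (lpt p u v t2)
      have d3 := dc_nonneg j (lpt p u v t3)
      have a1 : |(dc j (lpt p u v t3) : ℝ) - dc j (lpt p u v t2)| ≤ 3 := by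
        have : |(dc j (lpt p u v t3)) - dc j (lpt p u v t2)| ≤ 3 := by rw [abs_le]; omega
        exact_mod_cast this
      have a2 : |(dc j (lpt p u v t1) : ℝ) - dc j (lpt p u v t2)| ≤ 3 := by
        have : |(dc j (lpt p u v t1)) - dc j (lpt p u v t2)| ≤ 3 := by rw [abs_le]; omega
        exact_mod_cast this
      have l1' : (0:ℝ) < (t2 : ℝ) - t1 := by
        have : (t1 : ℝ) < t2 := by exact_mod_cast l1
        linarith
      have l2' : (0:ℝ) < (t3 : ℝ) - t2 := by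
        have : (t2 : ℝ) < t3 := by exact_mod_cast l2
        linarith
      have hT : (t3 : ℝ) - t1 ≤ 2 ^ T := by
        have : t3 - t1 ≤ 2 ^ T := by rw [mem_Icc] at i1 i3; omega
        exact_mod_cast this
      calc _ ≤ |((t2 : ℝ) - t1) * ((dc j (lpt p u v t3) : ℝ) - dc j (lpt p u v t2))| +
            |((t3 : ℝ) - t2) * ((dc j (lpt p u v t1) : ℝ) - dc j (lpt p u v t2))| := abs_add_le _ _
        _ = ((t2 : ℝ) - t1) * |(dc j (lpt p u v t3) : ℝ) - dc j (lpt p u v t2)| +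
            ((t3 : ℝ) - t2) * |(dc j (lpt p u v t1) : ℝ) - dc j (lpt p u v t2)| := by
          rw [abs_mul, abs_mul, abs_of_pos l1', abs_of_pos l2']
        _ ≤ ((t2 : ℝ) - t1) * 3 + ((t3 : ℝ) - t2) * 3 := by gcongr
        _ ≤ 3 * 2 ^ T := by linarith
    have hz : ∀ j < k, s * (((t2 : ℝ) - t1) * ((dc j (lpt p u v t3) : ℝ) - dc j (lpt p u v t2)) +
        ((t3 : ℝ) - t2) * ((dc j (lpt p u v t1) : ℝ) - dc j (lpt p u v t2))) = 0 := by
      intro j hj
      have f1 := dc_same p u v j t1 t2 (e1.of_dvd (pow_dvd_pow _ (by omega)))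
      have f2 := dc_same p u v j t2 t3 (e2.of_dvd (pow_dvd_pow _ (by omega)))
      rw [f1, f2]
      ring
    have := first_pos (lam := lam) (M := 3 * 2 ^ T) h0 h1 h2 k T _ hbd hz hone hkT
    refine lt_of_lt_of_eq this ?_
    exact Finset.sum_congr rfl fun j _ => by ring
  refine ⟨fun k t t' h => dc_same p u v k t t' h, fun k t t' h h' => dc_diff p huv k t t' h h', ?_, ?_⟩
  · intro k t1 t2 t3 i1 i2 i3 l1 l2 e1 e2 c1 c2 c3
    have := key 1 (Or.inl rfl) k t1 t2 t3 i1 i2 i3 l1 l2 e1 e2 (by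
      rw [one_mul]
      have hi : 1 ≤ (t2 - t1) * (dc k (lpt p u v t3) - dc k (lpt p u v t2)) +
          (t3 - t2) * (dc k (lpt p u v t1) - dc k (lpt p u v t2)) := by
        rcases c3 with c3 | c3
        · nlinarith
        · nlinarith
      exact_mod_cast hi)
    linarith
  · intro k t1 t2 t3 i1 i2 i3 l1 l2 e1 e2 c1 c2 c3
    have := key (-1) (Or.inr rfl) k t1 t2 t3 i1 i2 i3 l1 l2 e1 e2 (by
      have hi : 1 ≤ -1 * ((t2 - t1) * (dc k (lpt p u v t3) - dc k (lpt p u v t2)) +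
          (t3 - t2) * (dc k (lpt p u v t1) - dc k (lpt p u v t2))) := by
        rcases c3 with c3 | c3
        · nlinarith
        · nlinarith
      exact_mod_cast hi)
    linarith

end Pool.Agent.E8helper67.KH
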