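import Pool.Agent.E8helper67.KH.Cert

/-!
General position, and the planar point set.
-/

set_option autoImplicit false

open Filter Set
open scoped Topology

namespace Pool.Agent.E8helper67.KH

lemma quad_ne {A B C : ℝ} (hC : C ≠ 0) : ∀ᶠ d in 𝓝[>] (0:ℝ), A + d * B + d ^ 2 * C ≠ 0 := by
  have evp : ∀ᶠ e in 𝓝[>] (0:ℝ), e ∈ Ioi (0:ℝ) := self_mem_nhdsWithin
  by_cases hA : A = 0
  · by_cases hB : B = 0
    · filter_upwards [evp] with d hd
      have hd' : (0:ℝ) < d := hd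
      rw [hA, hB]
      simp only [mul_zero, add_zero, zero_add]
      exact mul_ne_zero (by positivity) hC
    · have hc : Tendsto (fun d : ℝ => B + d * C) (𝓝[>] 0) (𝓝 (B + 0 * C)) := by
        have : Continuous (fun d : ℝ => B + d * C) := by fun_prop
        exact (this.tendsto 0).mono_left nhdsWithin_le_nhds
      rw [zero_mul, add_zero] at hc
      filter_upwards [hc.eventually_ne hB, evp] with d h1 hd
      have hd' : (0:ℝ) < d := hd
      have e : A + d * B + d ^ 2 * C = d * (B + d * C) := by rw [hA]; ring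
      rw [e]
      exact mul_ne_zero hd'.ne' h1
  · have hc : Tendsto (fun d : ℝ => A + d * B + d ^ 2 * C) (𝓝[>] 0) (𝓝 (A + 0 * B + 0 ^ 2 * C)) := by
      have : Continuous (fun d : ℝ => A + d * B + d ^ 2 * C) := by fun_prop
      exact (this.tendsto 0).mono_left nhdsWithin_le_nhds
    have e : A + 0 * B + 0 ^ 2 * C = A := by ring
    rw [e] at hc
    exact hc.eventually_ne hA

/-- moving a point along the moment curve -/
def mv (p : ℝ × ℝ) (x d : ℝ) : ℝ × ℝ := (p.1 + d * x, p.2 + d * x ^ 2)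

lemma mv_tendsto (p : ℝ × ℝ) (x : ℝ) : Tendsto (fun d => mv p x d) (𝓝[>] 0) (𝓝 p) := by
  have hc : Continuous (fun d => mv p x d) := by unfold mv; fun_prop
  have := hc.tendsto 0
  have e : mv p x 0 = p := by unfold mv; simp
  rw [e] at this
  exact this.mono_left nhdsWithin_le_nhds

lemma ori_mv (p q r : ℝ × ℝ) (x y z d : ℝ) : ori (mv p x d) (mv q y d) (mv r z d) =
    ori p q r + d * ((q.1 - p.1) * (z ^ 2 - x ^ 2) + (y - x) * (r.2 - p.2) -
      (q.2 - p.2) * (z - x) - (y ^ 2 - x ^ 2) * (r.1 - p.1)) +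
      d ^ 2 * ((y - x) * (z - x) * (z - y)) := by
  unfold ori mv; ring

/-- generic perturbation -/
lemma generic {J : Type} [Finite J] (Q : J → ℝ × ℝ) : ∃ Q' : ℝ → J → ℝ × ℝ,
    (∀ i, Tendsto (fun d => Q' d i) (𝓝[>] 0) (𝓝 (Q i))) ∧
    ∀ᶠ d in 𝓝[>] (0:ℝ), ∀ i j k, i ≠ j → i ≠ k → j ≠ k → ori (Q' d i) (Q' d j) (Q' d k) ≠ 0 := by
  obtain ⟨n, ⟨f⟩⟩ := Finite.exists_equiv_fin J
  have hne : ∀ i j : J, i ≠ j → ((f j : ℕ) : ℝ) - ((f i : ℕ) : ℝ) ≠ 0 := by
    intro i j hij h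
    apply hij
    have h1 : ((f j : ℕ) : ℝ) = ((f i : ℕ) : ℝ) := by linarith
    have h2 : (f j : ℕ) = (f i : ℕ) := by exact_mod_cast h1
    exact (f.injective (Fin.ext h2)).symm
  refine ⟨fun d i => mv (Q i) ((f i : ℕ) : ℝ) d, fun i => mv_tendsto _ _, ?_⟩
  rw [eventually_all]; intro i
  rw [eventually_all]; intro j
  rw [eventually_all]; intro k
  by_cases h : i ≠ j ∧ i ≠ k ∧ j ≠ k
  · obtain ⟨h1, h2, h3⟩ := h
    filter_upwards [quad_ne (A := ori (Q i) (Q j) (Q k)) (B := _)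
      (mul_ne_zero (mul_ne_zero (hne i j h1) (hne i k h2)) (hne j k h3))] with d hd _ _ _
    rw [ori_mv]
    exact hd
  · exact Eventually.of_forall fun d h1 h2 h3 => absurd ⟨h1, h2, h3⟩ h

lemma collinear_ori {a b c : ℝ × ℝ} (h : Collinear ℝ ({a, b, c} : Set (ℝ × ℝ))) : ori a b c = 0 := by
  rw [collinear_iff_of_mem (p₀ := a) (by simp)] at h
  obtain ⟨v, hv⟩ := h
  obtain ⟨r, hr⟩ := hv b (by simp)
  obtain ⟨t, ht⟩ := hv c (by simp)
  rw [hr, ht]
  unfold ori
  simp only [vadd_eq_add, Prod.fst_add, Prod.snd_add, Prod.smul_fst, Prod.smul_snd, smul_eq_mul]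
  ring

/-- the linear functional of a normal vector -/
noncomputable def fnl (n : ℝ × ℝ) : ℝ × ℝ →ₗ[ℝ] ℝ := n.1 • LinearMap.fst ℝ ℝ ℝ + n.2 • LinearMap.snd ℝ ℝ ℝ

lemma fnl_apply (n y : ℝ × ℝ) : fnl n y = n.1 * y.1 + n.2 * y.2 := by
  simp [fnl]

lemma fnl_sub (n x z : ℝ × ℝ) : n.1 * (x.1 - z.1) + n.2 * (x.2 - z.2) = fnl n x - fnl n z := by
  rw [fnl_apply, fnl_apply]; ring

lemma not_mem_hull {n z : ℝ × ℝ} {S : Set (ℝ × ℝ)} (h : ∀ x ∈ S, fnl n z < fnl n x) :
    z ∉ convexHull ℝ S := by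
  intro hz
  have hc : Convex ℝ {w : ℝ × ℝ | fnl n z < fnl n w} :=
    convex_halfSpace_gt (fnl n).isLinear _
  have h2 : fnl n z < fnl n z := convexHull_min (s := S) (fun x hx => h x hx) hc hz
  exact lt_irrefl _ h2

lemma not_mem_interior {n z : ℝ × ℝ} {S : Set (ℝ × ℝ)} (h : ∀ x ∈ S, fnl n z ≤ fnl n x)
    (h' : ∃ x ∈ S, fnl n z < fnl n x) : z ∉ interior (convexHull ℝ S) := by
  intro hz
  have hc : Convex ℝ {w : ℝ × ℝ | fnl n z ≤ fnl n w} :=
    convex_halfSpace_ge (fnl n).isLinear _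
  have hsub := convexHull_min (s := S) (fun x hx => h x hx) hc
  have hn : 0 < n.1 ^ 2 + n.2 ^ 2 := by
    obtain ⟨x, _, hx⟩ := h'
    rw [fnl_apply, fnl_apply] at hx
    by_contra hcon
    have h1 : n.1 = 0 := by nlinarith [sq_nonneg n.1, sq_nonneg n.2]
    have h2 : n.2 = 0 := by nlinarith [sq_nonneg n.1, sq_nonneg n.2]
    rw [h1, h2] at hx
    simp at hx
  have hnh := mem_interior_iff_mem_nhds.1 hz
  have hcont : Tendsto (fun d : ℝ => ((z.1 - d * n.1, z.2 - d * n.2) : ℝ × ℝ)) (𝓝[>] 0) (𝓝 z) := by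
    have hc : Continuous (fun d : ℝ => ((z.1 - d * n.1, z.2 - d * n.2) : ℝ × ℝ)) := by fun_prop
    have := hc.tendsto 0
    simp only [zero_mul, sub_zero] at this
    exact this.mono_left nhdsWithin_le_nhds
  have evp : ∀ᶠ e in 𝓝[>] (0:ℝ), e ∈ Ioi (0:ℝ) := self_mem_nhdsWithin
  obtain ⟨d, hd1, hd2⟩ := ((hcont.eventually hnh).and evp).exists
  have hd' : (0:ℝ) < d := hd2
  have h3 : fnl n z ≤ fnl n (z.1 - d * n.1, z.2 - d * n.2) := hsub hd1
  rw [fnl_apply, fnl_apply] at h3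
  simp only at h3
  have h4 : 0 < d * (n.1 ^ 2 + n.2 ^ 2) := mul_pos hd' hn
  nlinarith

/-- the point sets -/
theorem exists_set (T R s u₁ u₂ : ℕ) (h1 : 54 ^ (T + 1) ≤ u₁) (h2 : 54 ^ (T + 1) ≤ u₂) :
    ∃ P : Finset (ℝ × ℝ),
      (∀ a ∈ P, ∀ b ∈ P, ∀ c ∈ P, a ≠ b → a ≠ c → b ≠ c → ¬ Collinear ℝ ({a, b, c} : Set (ℝ × ℝ))) ∧
      P.card ≤ u₁ + u₂ + s * ((T + 1) * (R + 1) ^ (T + 3)) ∧
      (∀ X ⊆ P, u₁ + u₂ + 2 * s < X.card → ∃ z ∈ P, z ∈ interior (convexHull ℝ (X : Set (ℝ × ℝ)))) ∧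
      ∃ F : (Fin s → Fin ((R + 1) ^ (T + 1) - 1)) → Finset (ℝ × ℝ), Function.Injective F ∧
        ∀ a, F a ⊆ P ∧ (F a).card = u₁ + u₂ + 2 * s ∧
          (∀ x ∈ F a, x ∉ convexHull ℝ ((F a : Set (ℝ × ℝ)) \ {x})) ∧
          Disjoint (interior (convexHull ℝ (F a : Set (ℝ × ℝ)))) (P : Set (ℝ × ℝ)) := by
  classical
  obtain ⟨c, L, hL, hF, hcard⟩ := levels R T
  set m := (R + 1) ^ (T + 1) with hm
  -- parameters
  set k : ℝ := 1 / (2 * (L + 1)) with hk'
  have hk : 0 < k := by positivity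
  have hkL : k * L < 1 := by
    rw [hk', one_div_mul_eq_div, div_lt_one (by positivity)]
    linarith
  set θ : ℝ := min (k / (2 * (u₁ + u₂ + s + 1))) (1 / (2 * (L + 1))) with hθ'
  have hθ0 : 0 < θ := lt_min (by positivity) (by positivity)
  have hθ : θ * (u₁ + u₂ + s + 1) < k := by
    have : θ ≤ k / (2 * (u₁ + u₂ + s + 1)) := min_le_left _ _
    rw [le_div_iff₀ (by positivity)] at this
    nlinarith
  have hLθ : L * θ < 1 := by
    have : θ ≤ 1 / (2 * (L + 1)) := min_le_right _ _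
    rw [le_div_iff₀ (by positivity)] at this
    nlinarith
  obtain ⟨P0, hP0⟩ := hF θ hθ0
  obtain ⟨e, he1, he2⟩ := ((final_bd (u₁ := u₁) (u₂ := u₂) (s := s) hP0 hk hkL hθ hθ0 h1 h2).and
    (cert_final (u₁ := u₁) (u₂ := u₂) (s := s) hP0 hk hkL hLθ)).exists
  set Q : Jx u₁ u₂ s (Fin m ⊕ Fin c) → ℝ × ℝ := Qf P0 k e with hQ
  obtain ⟨Q', hQ1, hQ2⟩ := generic Q
  have hcert : ∀ᶠ d in 𝓝[>] (0:ℝ), ∀ a : Fin s → Fin (m - 1), Cert (Q' d) (Xa a) := by
    rw [eventually_all]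
    intro a
    exact (he2 a).eventually hQ1
  obtain ⟨d, hd1, hd2, hd3⟩ := ((he1.eventually hQ1).and (hcert.and hQ2)).exists
  set q := Q' d with hq
  have h54 : 54 ≤ 54 ^ (T + 1) := by
    calc 54 = 54 ^ 1 := by norm_num
      _ ≤ 54 ^ (T + 1) := Nat.pow_le_pow_right (by norm_num) (by omega)
  have hinj : Function.Injective q := by
    intro i j hij
    by_contra hne
    have hcJ : Fintype.card (Jx u₁ u₂ s (Fin m ⊕ Fin c)) = u₁ + (u₂ + s * (m + c)) := by
      simp only [Fintype.card_sum, Fintype.card_prod, Fintype.card_fin]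
    obtain ⟨l, _, hl⟩ := Finset.exists_mem_notMem_of_card_lt_card
      (s := ({i, j} : Finset (Jx u₁ u₂ s (Fin m ⊕ Fin c)))) (t := Finset.univ) (by
        have : ({i, j} : Finset (Jx u₁ u₂ s (Fin m ⊕ Fin c))).card ≤ 2 := Finset.card_le_two
        rw [Finset.card_univ, hcJ]
        omega)
    have hl1 : i ≠ l := by rintro rfl; simp at hl
    have hl2 : j ≠ l := by rintro rfl; simp at hl
    apply hd3 i j l hne hl1 hl2
    rw [hij]
    unfold ori; ring
  refine ⟨Finset.univ.image q, ?_, ?_, ?_, fun a => (Xa a).image q, ?_, ?_⟩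
  · intro x hx y hy z hz hxy hxz hyz hcol
    obtain ⟨i, _, rfl⟩ := Finset.mem_image.1 hx
    obtain ⟨j, _, rfl⟩ := Finset.mem_image.1 hy
    obtain ⟨l, _, rfl⟩ := Finset.mem_image.1 hz
    exact hd3 i j l (fun h => hxy (by rw [h])) (fun h => hxz (by rw [h])) (fun h => hyz (by rw [h]))
      (collinear_ori hcol)
  · refine Finset.card_image_le.trans ?_
    rw [Finset.card_univ]
    simp only [Fintype.card_sum, Fintype.card_prod, Fintype.card_fin]
    have := Nat.mul_le_mul_left s hcard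
    omega
  · intro X hX hcX
    set Y : Finset (Jx u₁ u₂ s (Fin m ⊕ Fin c)) := Finset.univ.filter (fun j => q j ∈ X) with hY
    have hXY : X ⊆ Y.image q := by
      intro x hx
      obtain ⟨i, _, rfl⟩ := Finset.mem_image.1 (hX hx)
      exact Finset.mem_image_of_mem _ (Finset.mem_filter.2 ⟨Finset.mem_univ _, hx⟩)
    have hYc : u₁ + u₂ + 2 * s < Y.card :=
      hcX.trans_le ((Finset.card_le_card hXY).trans Finset.card_image_le)
    obtain ⟨a, ha, b, hb, c', hc, z, hI⟩ := hd1 Y hYc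
    refine ⟨q z, Finset.mem_image_of_mem _ (Finset.mem_univ _), ?_⟩
    refine interior_mono (convexHull_mono ?_) hI.mem_interior
    intro w hw
    simp only [Set.mem_insert_iff, Set.mem_singleton_iff] at hw
    rcases hw with rfl | rfl | rfl
    · exact (Finset.mem_filter.1 ha).2
    · exact (Finset.mem_filter.1 hb).2
    · exact (Finset.mem_filter.1 hc).2
  · intro a b hab
    exact Xa_inj (Finset.image_injective hinj hab)
  · intro a
    have hcert := hd2 a
    have hcard' : ((Xa a).image q).card = u₁ + u₂ + 2 * s := by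
      rw [Finset.card_image_of_injective _ hinj, Xa_card]
    refine ⟨Finset.image_subset_image (Finset.subset_univ _), hcard', ?_, ?_⟩
    · intro x hx
      obtain ⟨i, _, rfl⟩ := Finset.mem_image.1 hx
      obtain ⟨n, hn⟩ := hcert i
      apply not_mem_hull (n := n)
      rintro y ⟨hy, hyi⟩
      obtain ⟨j, hj, rfl⟩ := Finset.mem_image.1 (Finset.mem_coe.1 hy)
      have hji : j ≠ i := by
        rintro rfl
        exact hyi rfl
      have := hn j hj hji
      rw [fnl_sub] at this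
      linarith
    · rw [Set.disjoint_left]
      intro z hz hzP
      obtain ⟨i, _, rfl⟩ := Finset.mem_image.1 (Finset.mem_coe.1 hzP)
      obtain ⟨n, hn⟩ := hcert i
      refine not_mem_interior (n := n) ?_ ?_ hz
      · intro x hx
        obtain ⟨j, hj, rfl⟩ := Finset.mem_image.1 (Finset.mem_coe.1 hx)
        by_cases hji : j = i
        · rw [hji]
        · have := hn j hj hji
          rw [fnl_sub] at this
          linarith
      · obtain ⟨j, hj, hji⟩ : ∃ j ∈ (Xa a : Finset (Jx u₁ u₂ s (Fin m ⊕ Fin c))), j ≠ i := by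
          have hc1 : 1 < (Xa a : Finset (Jx u₁ u₂ s (Fin m ⊕ Fin c))).card := by
            rw [Xa_card]; omega
          obtain ⟨j, hj, hji⟩ := Finset.exists_mem_ne hc1 i
          exact ⟨j, hj, hji⟩
        refine ⟨q j, Finset.mem_coe.2 (Finset.mem_image_of_mem _ hj), ?_⟩
        have := hn j hj hji
        rw [fnl_sub] at this
        linarith

end Pool.Agent.E8helper67.KH
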