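import Pool.Agent.E8helper67.KH.Levels

/-!
Flattened blobs and single points along a convex parabola.
-/

set_option autoImplicit false

open Filter Set
open scoped Topology

namespace Pool.Agent.E8helper67.KH

/-- points of the parabola -/
noncomputable def cpt (j : ℤ) : ℝ × ℝ := ((j : ℝ), (j : ℝ) ^ 2)

/-- the index type of the final configuration -/
abbrev Jx (u₁ u₂ s : ℕ) (ι : Type) : Type := Fin u₁ ⊕ Fin u₂ ⊕ (Fin s × ι)

variable {u₁ u₂ s m c : ℕ}

/-- position along the parabola -/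
def ppos {ι : Type} : Jx u₁ u₂ s ι → ℤ
  | Sum.inl i => -1 - ((i : ℕ) : ℤ)
  | Sum.inr (Sum.inl i) => (s : ℤ) + ((i : ℕ) : ℤ)
  | Sum.inr (Sum.inr q) => ((q.1 : ℕ) : ℤ)

/-- the final configuration -/
noncomputable def Qf {ι : Type} (P : ι → ℝ × ℝ) (k e : ℝ) : Jx u₁ u₂ s ι → ℝ × ℝ
  | Sum.inl i => cpt (-1 - ((i : ℕ) : ℤ))
  | Sum.inr (Sum.inl i) => cpt ((s : ℤ) + ((i : ℕ) : ℤ))
  | Sum.inr (Sum.inr q) => pl (cpt ((q.1 : ℕ) : ℤ)) (2 * (((q.1 : ℕ) : ℤ) : ℝ)) k e (P q.2)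

lemma Qf_tendsto {ι : Type} (P : ι → ℝ × ℝ) (k : ℝ) (j : Jx u₁ u₂ s ι) :
    Tendsto (fun e => Qf P k e j) (𝓝[>] 0) (𝓝 (cpt (ppos j))) := by
  rcases j with i | i | q
  · exact tendsto_const_nhds
  · exact tendsto_const_nhds
  · exact pl_tendsto _ _ _ _

lemma ppos_range {ι : Type} (j j' : Jx u₁ u₂ s ι) : |((ppos j - ppos j' : ℤ) : ℝ)| ≤ (u₁ + u₂ + s : ℝ) := by
  have h : |ppos j - ppos j'| ≤ (u₁ + u₂ + s : ℤ) := by
    rw [abs_le]
    rcases j with i | i | q <;> rcases j' with i' | i' | q' <;> simp only [ppos] <;> omega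
  exact_mod_cast h

/-- the basic computation -/
lemma par_eq (i j : ℤ) (k : ℝ) (x y : ℝ × ℝ) :
    (y.1 - x.1) * ((cpt j).2 - (cpt i).2) - (2 * (i : ℝ) * (y.1 - x.1) + k * (y.2 - x.2)) *
      ((cpt j).1 - (cpt i).1) = ((j - i : ℤ) : ℝ) * ((y.1 - x.1) * ((j - i : ℤ) : ℝ) - k * (y.2 - x.2)) := by
  unfold cpt; push_cast; ring

lemma ori_cpt (a b c : ℤ) : ori (cpt a) (cpt b) (cpt c) = ((b - a : ℤ) : ℝ) * ((c - a : ℤ) : ℝ) * ((c - b : ℤ) : ℝ) := by
  unfold ori cpt; push_cast; ring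

/-- a lower point, its top, and points on both sides -/
lemma ev_E1 {P : Fin m ⊕ Fin c → ℝ × ℝ} {θ L k : ℝ} {h : ℕ} (hP : IsBlob P θ L h)
    (hθ : θ * (u₁ + u₂ + s + 1) < k) (hθ0 : 0 < θ) :
    ∀ᶠ e in 𝓝[>] (0:ℝ), ∀ (i : Fin s) (z : Fin c) (l r : Jx u₁ u₂ s (Fin m ⊕ Fin c)),
      ppos l < ((i : ℕ) : ℤ) → ((i : ℕ) : ℤ) < ppos r → ∃ w : Fin m,
      In (Qf P k e (Sum.inr (Sum.inr (i, Sum.inr z)) : Jx u₁ u₂ s (Fin m ⊕ Fin c))) (Qf P k e r)
        (Qf P k e l) (Qf P k e (Sum.inr (Sum.inr (i, Sum.inl w)) : Jx u₁ u₂ s (Fin m ⊕ Fin c))) := by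
  rw [eventually_all]; intro i
  rw [eventually_all]; intro z
  rw [eventually_all]; intro l
  rw [eventually_all]; intro r
  by_cases hlr : ppos l < ((i : ℕ) : ℤ) ∧ ((i : ℕ) : ℤ) < ppos r
  swap
  · exact Eventually.of_forall fun e h1 h2 => absurd ⟨h1, h2⟩ hlr
  obtain ⟨hl, hr⟩ := hlr
  obtain ⟨w, hw1, hw2⟩ := hP.cone z
  have hdy : 0 < (P (Sum.inl w)).2 - (P (Sum.inr z)).2 := by linarith
  set dx := (P (Sum.inl w)).1 - (P (Sum.inr z)).1 with hdx'
  set dy := (P (Sum.inl w)).2 - (P (Sum.inr z)).2 with hdy'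
  have hrange : ∀ j : Jx u₁ u₂ s (Fin m ⊕ Fin c), |((ppos j - ((i : ℕ) : ℤ) : ℤ) : ℝ)| ≤ (u₁ + u₂ + s : ℝ) := by
    intro j
    exact ppos_range j (Sum.inr (Sum.inr (i, Sum.inr z)) : Jx u₁ u₂ s (Fin m ⊕ Fin c))
  have hbound : ∀ j : Jx u₁ u₂ s (Fin m ⊕ Fin c), |dx * ((ppos j - ((i : ℕ) : ℤ) : ℤ) : ℝ)| < k * dy := by
    intro j
    rw [abs_mul]
    have h1 := hrange j
    calc |dx| * |((ppos j - ((i : ℕ) : ℤ) : ℤ) : ℝ)| ≤ (θ * dy) * (u₁ + u₂ + s : ℝ) := by gcongr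
      _ ≤ (θ * dy) * (u₁ + u₂ + s + 1 : ℝ) := by
        apply mul_le_mul_of_nonneg_left _ (by positivity)
        linarith
      _ = (θ * (u₁ + u₂ + s + 1 : ℝ)) * dy := by ring
      _ < k * dy := by gcongr
  have hDr : (0:ℝ) < ((ppos r - ((i : ℕ) : ℤ) : ℤ) : ℝ) := by
    have : 0 < ppos r - ((i : ℕ) : ℤ) := by omega
    exact_mod_cast this
  have hDl : ((ppos l - ((i : ℕ) : ℤ) : ℤ) : ℝ) < 0 := by
    have : ppos l - ((i : ℕ) : ℤ) < 0 := by omega
    exact_mod_cast this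
  have o1 := near_pos (Qf_tendsto P k r) (A := cpt ((i : ℕ) : ℤ)) (s := 2 * (((i : ℕ) : ℤ) : ℝ)) (k := k)
    (x := P (Sum.inl w)) (y := P (Sum.inr z)) (by
      rw [par_eq]
      apply mul_pos hDr
      have e1 : (P (Sum.inr z)).1 - (P (Sum.inl w)).1 = - dx := by rw [hdx']; ring
      have e2 : (P (Sum.inr z)).2 - (P (Sum.inl w)).2 = - dy := by rw [hdy']; ring
      rw [e1, e2]
      have := (abs_lt.1 (hbound r)).2
      linarith)
  have o3 := near_pos (Qf_tendsto P k l) (A := cpt ((i : ℕ) : ℤ)) (s := 2 * (((i : ℕ) : ℤ) : ℝ)) (k := k)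
    (x := P (Sum.inr z)) (y := P (Sum.inl w)) (by
      rw [par_eq, ← hdx', ← hdy']
      apply mul_pos_of_neg_of_neg hDl
      have := (abs_lt.1 (hbound l)).2
      linarith)
  have o2 := (tendsto_ori (Qf_tendsto P k r) (Qf_tendsto P k l)
    (Qf_tendsto (u₁ := u₁) (u₂ := u₂) P k (Sum.inr (Sum.inr (i, Sum.inl w))))).eventually_const_lt (u := 0) (by
      rw [ori_cpt]
      have a1 : ((ppos l - ppos r : ℤ) : ℝ) < 0 := by
        have : ppos l - ppos r < 0 := by omega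
        exact_mod_cast this
      have a2 : ((ppos (Sum.inr (Sum.inr (i, Sum.inl w)) : Jx u₁ u₂ s (Fin m ⊕ Fin c)) - ppos r : ℤ) : ℝ) < 0 := by
        have : ((i : ℕ) : ℤ) - ppos r < 0 := by omega
        exact_mod_cast this
      have a3 : (0:ℝ) < ((ppos (Sum.inr (Sum.inr (i, Sum.inl w)) : Jx u₁ u₂ s (Fin m ⊕ Fin c)) - ppos l : ℤ) : ℝ) := by
        have : 0 < ((i : ℕ) : ℤ) - ppos l := by omega
        exact_mod_cast this
      exact mul_pos (mul_pos_of_neg_of_neg a1 a2) a3)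
  filter_upwards [o1, o2, o3] with e e1 e2 e3 _ _
  refine ⟨w, ?_, e2, ?_⟩
  · rw [ori_cyc']; exact e1
  · rw [ori_cyc]; exact e3

/-- three tops and a point to the right -/
lemma ev_E2 {P : Fin m ⊕ Fin c → ℝ × ℝ} {θ L k : ℝ} {h : ℕ} (hP : IsBlob P θ L h) (hk : 0 < k)
    (hkL : k * L < 1) :
    ∀ᶠ e in 𝓝[>] (0:ℝ), ∀ (i : Fin s) (a b d : Fin m) (j : Jx u₁ u₂ s (Fin m ⊕ Fin c)), a < b → b < d →
      ((i : ℕ) : ℤ) < ppos j →
      In (Qf P k e (Sum.inr (Sum.inr (i, Sum.inl a)) : Jx u₁ u₂ s (Fin m ⊕ Fin c)))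
        (Qf P k e (Sum.inr (Sum.inr (i, Sum.inl d)) : Jx u₁ u₂ s (Fin m ⊕ Fin c))) (Qf P k e j)
        (Qf P k e (Sum.inr (Sum.inr (i, Sum.inl b)) : Jx u₁ u₂ s (Fin m ⊕ Fin c))) := by
  rw [eventually_all]; intro i
  rw [eventually_all]; intro a
  rw [eventually_all]; intro b
  rw [eventually_all]; intro d
  rw [eventually_all]; intro j
  by_cases hlr : (a < b ∧ b < d) ∧ ((i : ℕ) : ℤ) < ppos j
  swap
  · exact Eventually.of_forall fun e h1 h2 h3 => absurd ⟨⟨h1, h2⟩, h3⟩ hlr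
  obtain ⟨⟨hab, hbd⟩, hr⟩ := hlr
  have hD : (1:ℝ) ≤ ((ppos j - ((i : ℕ) : ℤ) : ℤ) : ℝ) := by
    have : 1 ≤ ppos j - ((i : ℕ) : ℤ) := by omega
    exact_mod_cast this
  have key : ∀ x y : Fin m, x < y → ∀ᶠ e in 𝓝[>] (0:ℝ), 0 < ori
      (Qf P k e (Sum.inr (Sum.inr (i, Sum.inl x)) : Jx u₁ u₂ s (Fin m ⊕ Fin c)))
      (Qf P k e (Sum.inr (Sum.inr (i, Sum.inl y)) : Jx u₁ u₂ s (Fin m ⊕ Fin c))) (Qf P k e j) := by
    intro x y hxy
    have := near_pos (Qf_tendsto P k j) (A := cpt ((i : ℕ) : ℤ)) (s := 2 * (((i : ℕ) : ℤ) : ℝ)) (k := k)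
      (x := P (Sum.inl x)) (y := P (Sum.inl y)) (by
        rw [par_eq]
        apply mul_pos (by linarith)
        have h1 := hP.mono x y hxy
        have h2 := (abs_le.1 (hP.slope x y hxy)).2
        set dx := (P (Sum.inl y)).1 - (P (Sum.inl x)).1 with hdx
        set dy := (P (Sum.inl y)).2 - (P (Sum.inl x)).2 with hdy
        have hdx0 : 0 < dx := by rw [hdx]; linarith
        have h3 : k * dy ≤ k * (L * dx) := mul_le_mul_of_nonneg_left h2 hk.le
        nlinarith)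
    exact this
  have evp : ∀ᶠ e in 𝓝[>] (0:ℝ), e ∈ Ioi (0:ℝ) := self_mem_nhdsWithin
  filter_upwards [key a b hab, key b d hbd, evp] with e e1 e2 he _ _ _
  have he' : (0:ℝ) < e := he
  refine ⟨?_, ?_, ?_⟩
  · rw [ori_swap]
    simp only [Qf]
    rw [ori_pl]
    have h1 := hP.cap a b d hab hbd
    have h2 : 0 < e ^ 2 * k := by positivity
    nlinarith
  · rw [← ori_cyc]; exact e2
  · rw [ori_cyc]; exact e1

/-- counting -/
lemma card_split (X : Finset (Jx u₁ u₂ s (Fin m ⊕ Fin c))) : X.card = X.toLeft.card +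
    (X.toRight.toLeft.card + ∑ i : Fin s, (X.toRight.toRight.filter (fun q => q.1 = i)).card) := by
  rw [← Finset.card_toLeft_add_card_toRight, ← Finset.card_toLeft_add_card_toRight (u := X.toRight)]
  congr 2
  exact Finset.card_eq_sum_card_fiberwise (f := Prod.fst) (t := Finset.univ) (fun _ _ => Finset.mem_univ _)

/-- the final configuration has bounded holes -/
lemma final_bd {P : Fin m ⊕ Fin c → ℝ × ℝ} {θ L k : ℝ} {h : ℕ} (hP : IsBlob P θ L h) (hk : 0 < k)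
    (hkL : k * L < 1) (hθ : θ * (u₁ + u₂ + s + 1) < k) (hθ0 : 0 < θ) (h1 : h ≤ u₁) (h2 : h ≤ u₂) :
    ∀ᶠ e in 𝓝[>] (0:ℝ), Bd (Qf P k e : Jx u₁ u₂ s (Fin m ⊕ Fin c) → ℝ × ℝ) (u₁ + u₂ + 2 * s) := by
  classical
  have evp : ∀ᶠ e in 𝓝[>] (0:ℝ), e ∈ Ioi (0:ℝ) := self_mem_nhdsWithin
  filter_upwards [ev_E1 (u₁ := u₁) (u₂ := u₂) (s := s) hP hθ hθ0,
    ev_E2 (u₁ := u₁) (u₂ := u₂) (s := s) hP hk hkL, evp] with e E1 E2 he X hX
  have he' : (0:ℝ) < e := he
  by_contra hcon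
  -- points of one blob
  have hmem : ∀ (i : Fin s) (x : Fin m ⊕ Fin c), (i, x) ∈ X.toRight.toRight →
      (Sum.inr (Sum.inr (i, x)) : Jx u₁ u₂ s (Fin m ⊕ Fin c)) ∈ X := by
    intro i x hx
    exact Finset.mem_toRight.1 (Finset.mem_toRight.1 hx)
  have hh : ∀ i : Fin s, (X.toRight.toRight.filter (fun q => q.1 = i)).card ≤ h := by
    intro i
    by_contra hc
    rw [not_le] at hc
    set Y := (X.toRight.toRight.filter (fun q => q.1 = i)).image Prod.snd with hY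
    have hYc : Y.card = (X.toRight.toRight.filter (fun q => q.1 = i)).card := by
      apply Finset.card_image_of_injOn
      intro q hq r hr hqr
      have hq' := (Finset.mem_filter.1 hq).2
      have hr' := (Finset.mem_filter.1 hr).2
      exact Prod.ext (hq'.trans hr'.symm) hqr
    have hYX : ∀ x ∈ Y, (Sum.inr (Sum.inr (i, x)) : Jx u₁ u₂ s (Fin m ⊕ Fin c)) ∈ X := by
      intro x hx
      obtain ⟨q, hq, rfl⟩ := Finset.mem_image.1 hx
      obtain ⟨hq1, hq2⟩ := Finset.mem_filter.1 hq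
      apply hmem
      rw [← hq2]
      exact hq1
    obtain ⟨x, hx, y, hy, w, hw, z, hI⟩ := hP.bd Y (by omega)
    apply hcon
    refine ⟨_, hYX x hx, _, hYX y hy, _, hYX w hw, Sum.inr (Sum.inr (i, z)), ?_⟩
    exact In_pl he' hk hI
  -- big blobs are extreme
  have hbig : ∀ i : Fin s, 3 ≤ (X.toRight.toRight.filter (fun q => q.1 = i)).card →
      (∀ l ∈ X, ¬ ppos l < ((i : ℕ) : ℤ)) ∨ (∀ r ∈ X, ¬ ((i : ℕ) : ℤ) < ppos r) := by
    intro i hi
    by_contra hc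
    push Not at hc
    obtain ⟨⟨l, hl, hl'⟩, ⟨r, hr, hr'⟩⟩ := hc
    by_cases hlow : ∃ z : Fin c, (i, Sum.inr z) ∈ X.toRight.toRight
    · obtain ⟨z, hz⟩ := hlow
      obtain ⟨w, hw⟩ := E1 i z l r hl' hr'
      exact hcon ⟨_, hmem i _ hz, r, hr, l, hl, _, hw⟩
    · push Not at hlow
      -- all points are tops
      set Y := (Finset.univ : Finset (Fin m)).filter (fun a => (i, (Sum.inl a : Fin m ⊕ Fin c)) ∈ X.toRight.toRight)
        with hY
      have hYc : 3 ≤ Y.card := by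
        refine hi.trans ?_
        have hsub : X.toRight.toRight.filter (fun q => q.1 = i) ⊆ Y.image (fun a => (i, Sum.inl a)) := by
          rintro ⟨i', x⟩ hq
          obtain ⟨hq1, hq2⟩ := Finset.mem_filter.1 hq
          simp only at hq2
          subst hq2
          rcases x with a | z
          · exact Finset.mem_image.2 ⟨a, Finset.mem_filter.2 ⟨Finset.mem_univ _, hq1⟩, rfl⟩
          · exact absurd hq1 (hlow z)
        exact (Finset.card_le_card hsub).trans Finset.card_image_le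
      obtain ⟨a, b, d, ha, hb, hd, hab, hbd⟩ : ∃ a b d, a ∈ Y ∧ b ∈ Y ∧ d ∈ Y ∧ a < b ∧ b < d := by
        have f := Y.orderEmbOfFin rfl
        refine ⟨Y.orderEmbOfFin rfl ⟨0, by omega⟩, Y.orderEmbOfFin rfl ⟨1, by omega⟩,
          Y.orderEmbOfFin rfl ⟨2, by omega⟩, Finset.orderEmbOfFin_mem _ _ _,
          Finset.orderEmbOfFin_mem _ _ _, Finset.orderEmbOfFin_mem _ _ _, ?_, ?_⟩
        · rw [OrderEmbedding.lt_iff_lt, Fin.mk_lt_mk]; omega
        · rw [OrderEmbedding.lt_iff_lt, Fin.mk_lt_mk]; omega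
      exact hcon ⟨_, hmem i _ (Finset.mem_filter.1 ha).2, _, hmem i _ (Finset.mem_filter.1 hd).2, r, hr, _,
        E2 i a b d r hab hbd hr'⟩
  -- sums
  set f : Fin s → ℕ := fun i => (X.toRight.toRight.filter (fun q => q.1 = i)).card with hf
  set Ga := (Finset.univ : Finset (Fin s)).filter (fun i => 3 ≤ f i ∧ ∀ l ∈ X, ¬ ppos l < ((i : ℕ) : ℤ)) with hGa
  set Gb := (Finset.univ : Finset (Fin s)).filter (fun i => 3 ≤ f i ∧ ∀ r ∈ X, ¬ ((i : ℕ) : ℤ) < ppos r) with hGb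
  have hfne : ∀ i, 3 ≤ f i → ∃ x, (Sum.inr (Sum.inr (i, x)) : Jx u₁ u₂ s (Fin m ⊕ Fin c)) ∈ X := by
    intro i hi
    obtain ⟨q, hq⟩ := Finset.card_pos.1 (show 0 < f i by omega)
    obtain ⟨hq1, hq2⟩ := Finset.mem_filter.1 hq
    refine ⟨q.2, hmem i q.2 ?_⟩
    rw [← hq2]
    exact hq1
  have hL : X.toLeft.card + ∑ i ∈ Ga, f i ≤ u₁ := by
    rcases Ga.eq_empty_or_nonempty with h0 | ⟨i, hi⟩
    · rw [h0, Finset.sum_empty, add_zero]
      calc X.toLeft.card ≤ Fintype.card (Fin u₁) := Finset.card_le_univ _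
        _ = u₁ := Fintype.card_fin _
    · obtain ⟨_, hi1, hi2⟩ := Finset.mem_filter.1 hi
      have hsing : Ga = {i} := by
        apply Finset.eq_singleton_iff_unique_mem.2 ⟨hi, ?_⟩
        intro i' hi'
        obtain ⟨_, hi1', hi2'⟩ := Finset.mem_filter.1 hi'
        obtain ⟨x, hx⟩ := hfne i hi1
        obtain ⟨x', hx'⟩ := hfne i' hi1'
        have g1 := hi2 _ hx'
        have g2 := hi2' _ hx
        simp only [ppos] at g1 g2
        apply Fin.ext
        omega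
      have hXL : X.toLeft = ∅ := by
        rw [Finset.eq_empty_iff_forall_notMem]
        intro l hl
        have g := hi2 _ (Finset.mem_toLeft.1 hl)
        simp only [ppos] at g
        omega
      rw [hsing, Finset.sum_singleton, hXL, Finset.card_empty, zero_add]
      exact (hh i).trans h1
  have hR : X.toRight.toLeft.card + ∑ i ∈ Gb, f i ≤ u₂ := by
    rcases Gb.eq_empty_or_nonempty with h0 | ⟨i, hi⟩
    · rw [h0, Finset.sum_empty, add_zero]
      calc X.toRight.toLeft.card ≤ Fintype.card (Fin u₂) := Finset.card_le_univ _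
        _ = u₂ := Fintype.card_fin _
    · obtain ⟨_, hi1, hi2⟩ := Finset.mem_filter.1 hi
      have hsing : Gb = {i} := by
        apply Finset.eq_singleton_iff_unique_mem.2 ⟨hi, ?_⟩
        intro i' hi'
        obtain ⟨_, hi1', hi2'⟩ := Finset.mem_filter.1 hi'
        obtain ⟨x, hx⟩ := hfne i hi1
        obtain ⟨x', hx'⟩ := hfne i' hi1'
        have g1 := hi2 _ hx'
        have g2 := hi2' _ hx
        simp only [ppos] at g1 g2
        apply Fin.ext
        omega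
      have hXR : X.toRight.toLeft = ∅ := by
        rw [Finset.eq_empty_iff_forall_notMem]
        intro l hl
        have g := hi2 _ (Finset.mem_toRight.1 (Finset.mem_toLeft.1 hl))
        simp only [ppos] at g
        have := i.2
        omega
      rw [hsing, Finset.sum_singleton, hXR, Finset.card_empty, zero_add]
      exact (hh i).trans h2
  have hsum : ∑ i, f i ≤ (∑ i ∈ Ga, f i) + (∑ i ∈ Gb, f i) + 2 * s := by
    have hpt : ∀ i : Fin s, f i ≤ (if i ∈ Ga then f i else 0) + (if i ∈ Gb then f i else 0) + 2 := by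
      intro i
      by_cases hi : 3 ≤ f i
      · rcases hbig i hi with hb | hb
        · have : i ∈ Ga := Finset.mem_filter.2 ⟨Finset.mem_univ _, hi, hb⟩
          rw [if_pos this]; omega
        · have : i ∈ Gb := Finset.mem_filter.2 ⟨Finset.mem_univ _, hi, hb⟩
          rw [if_pos this]; omega
      · omega
    calc ∑ i, f i ≤ ∑ i : Fin s, ((if i ∈ Ga then f i else 0) + (if i ∈ Gb then f i else 0) + 2) :=
          Finset.sum_le_sum fun i _ => hpt i
      _ = _ := by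
        rw [Finset.sum_add_distrib, Finset.sum_add_distrib]
        rw [Finset.sum_ite_mem, Finset.sum_ite_mem, Finset.univ_inter, Finset.univ_inter]
        simp [mul_comm]
  have hsplit := card_split X
  change X.card = _ + (_ + ∑ i, f i) at hsplit
  omega

end Pool.Agent.E8helper67.KH
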