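import Pool.Agent.E8helper67.KH.BlowUp

/-!
Iterating the blow up.
-/

set_option autoImplicit false

open Filter Set
open scoped Topology

namespace Pool.Agent.E8helper67.KH

lemma card_base (R : ℕ) : Fintype.card (Fin (R + 1)) + Fintype.card (Low R) ≤ (R + 1) ^ 3 := by
  rw [← Fintype.card_sum]
  have hinj : Function.Injective (fun i : Fin (R + 1) ⊕ Low R =>
      ((⟨(Zp R i).1.toNat, by
        obtain ⟨h1, h2, h3⟩ := Zp_mem R i
        have : (Zp R i).1 ≤ R := by nlinarith [show (0:ℤ) ≤ R by positivity]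
        omega⟩ : Fin (R + 1)),
      (⟨(Zp R i).2.toNat, by
        obtain ⟨h1, h2, h3⟩ := Zp_mem R i
        have h4 : (Zp R i).2 ≤ ((R ^ 2 : ℕ) : ℤ) := by push_cast; nlinarith [sq_nonneg (Zp R i).1]
        omega⟩ : Fin (R ^ 2 + 1)))) := by
    intro i j h
    simp only [Prod.mk.injEq, Fin.mk.injEq] at h
    obtain ⟨a1, a2, a3⟩ := Zp_mem R i
    obtain ⟨b1, b2, b3⟩ := Zp_mem R j
    apply Zp_inj R
    apply Prod.ext
    · have := h.1; omega
    · have := h.2; omega
  have h1 := Fintype.card_le_of_injective _ hinj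
  rw [Fintype.card_prod, Fintype.card_fin, Fintype.card_fin] at h1
  refine h1.trans ?_
  have : R ^ 2 + 1 ≤ (R + 1) ^ 2 := by nlinarith
  calc (R + 1) * (R ^ 2 + 1) ≤ (R + 1) * (R + 1) ^ 2 := Nat.mul_le_mul_left _ this
    _ = (R + 1) ^ 3 := by ring

/-- transport of a family along equivalences -/
lemma Fam.congr {α β κ κ' : Type} [LinearOrder α] [LinearOrder β] {L : ℝ} {h : ℕ} (F : Fam α κ L h)
    (e : β ≃o α) (f : κ' ≃ κ) : Fam β κ' L h := by
  classical
  intro θ hθ
  obtain ⟨P, hP⟩ := F θ hθ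
  refine ⟨P ∘ Sum.map e f, ⟨?_, ?_, ?_, ?_, ?_⟩⟩
  · intro a b hab
    exact hP.mono _ _ (e.lt_iff_lt.2 hab)
  · intro a b c hab hbc
    exact hP.cap _ _ _ (e.lt_iff_lt.2 hab) (e.lt_iff_lt.2 hbc)
  · intro a b hab
    exact hP.slope _ _ (e.lt_iff_lt.2 hab)
  · intro z
    obtain ⟨a, ha⟩ := hP.cone (f z)
    refine ⟨e.symm a, ?_⟩
    simpa using ha
  · intro X hX
    have hinj : Function.Injective (Sum.map e f) := Sum.map_injective.2 ⟨e.injective, f.injective⟩
    have hc : (X.image (Sum.map e f)).card = X.card := Finset.card_image_of_injective _ hinj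
    obtain ⟨a, ha, b, hb, c, hc, z, hz⟩ := hP.bd (X.image (Sum.map e f)) (by omega)
    obtain ⟨a', ha', rfl⟩ := Finset.mem_image.1 ha
    obtain ⟨b', hb', rfl⟩ := Finset.mem_image.1 hb
    obtain ⟨c', hc', rfl⟩ := Finset.mem_image.1 hc
    have hsurj : Function.Surjective (Sum.map e f) := Sum.map_surjective.2 ⟨e.surjective, f.surjective⟩
    obtain ⟨z', rfl⟩ := hsurj z
    exact ⟨a', ha', b', hb', c', hc', z', hz⟩

/-- families after `T` levels -/
lemma levels_aux (R : ℕ) (T : ℕ) : ∃ (α κ : Type) (_ : LinearOrder α) (_ : Fintype α) (_ : Fintype κ)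
    (L : ℝ), 0 ≤ L ∧ Fam α κ L (54 ^ (T + 1)) ∧ Fintype.card α = (R + 1) ^ (T + 1) ∧
      Fintype.card α + Fintype.card κ ≤ (T + 1) * (R + 1) ^ (T + 3) := by
  induction T with
  | zero =>
    refine ⟨Fin (R + 1), Low R, inferInstance, inferInstance, inferInstance, 2 * R + 1, by positivity,
      ?_, by simp, ?_⟩
    · simpa using base_fam R
    · simpa using card_base R
  | succ T ih =>
    obtain ⟨α, κ, h1, h2, h3, L, hL, hF, hc1, hc2⟩ := ih
    have hne : Nonempty α := by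
      rw [← Fintype.card_pos_iff, hc1]; positivity
    have hF' := blow_fam (α₁ := Fin (R + 1)) (κ₁ := Low R) (α₂ := α) (κ₂ := κ) (L₁ := 2 * R + 1)
      (by positivity) (Nat.one_le_pow _ _ (by norm_num)) (base_fam R) hF
    have e (inst : Fintype (Fin (R + 1) ×ₗ α)) : @Fintype.card _ inst = (R + 1) * Fintype.card α := by
      have e1 : @Fintype.card _ inst = Fintype.card (Fin (R + 1) × α) := Fintype.card_congr ofLex
      rw [e1, Fintype.card_prod, Fintype.card_fin]
    refine ⟨Fin (R + 1) ×ₗ α, Low R ⊕ (Fin (R + 1) × κ), inferInstance,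
      inferInstanceAs (Fintype (Fin (R + 1) × α)), inferInstance, 2 * R + 1 + 2, by positivity, ?_, ?_, ?_⟩
    · have e : 54 ^ (T + 1 + 1) = 54 * 54 ^ (T + 1) := by ring
      rw [e]
      exact hF'
    · rw [e, hc1]
      ring
    · rw [e, Fintype.card_sum, Fintype.card_prod, Fintype.card_fin]
      have hb := card_base R
      rw [Fintype.card_fin] at hb
      have hb' : Fintype.card (Low R) ≤ (R + 1) ^ 3 := by omega
      have hpow : (R + 1) ^ 3 ≤ (R + 1) ^ (T + 1 + 3) := Nat.pow_le_pow_right (by omega) (by omega)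
      calc (R + 1) * Fintype.card α + (Fintype.card (Low R) + (R + 1) * Fintype.card κ)
          = Fintype.card (Low R) + (R + 1) * (Fintype.card α + Fintype.card κ) := by ring
        _ ≤ (R + 1) ^ (T + 1 + 3) + (R + 1) * ((T + 1) * (R + 1) ^ (T + 3)) :=
            Nat.add_le_add (hb'.trans hpow) (Nat.mul_le_mul_left _ hc2)
        _ = (T + 1 + 1) * (R + 1) ^ (T + 1 + 3) := by ring

/-- families on standard index types -/
lemma levels (R T : ℕ) : ∃ (c : ℕ) (L : ℝ), 0 ≤ L ∧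
    Fam (Fin ((R + 1) ^ (T + 1))) (Fin c) L (54 ^ (T + 1)) ∧
      (R + 1) ^ (T + 1) + c ≤ (T + 1) * (R + 1) ^ (T + 3) := by
  obtain ⟨α, κ, h1, h2, h3, L, hL, hF, hc1, hc2⟩ := levels_aux R T
  refine ⟨Fintype.card κ, L, hL, ?_, by rw [← hc1]; exact hc2⟩
  exact hF.congr (Fintype.orderIsoFinOfCardEq α hc1) (Fintype.equivFin κ).symm

end Pool.Agent.E8helper67.KH
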