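import Pool.Agent.E8helper67.KH.Orient

/-!
Horton type sequences: seven points of the graph always contain a point of the graph in a triangle.
-/

set_option autoImplicit false

open Filter Set
open scoped Topology

namespace Pool.Agent.E8helper67.KH

/-- a point of the graph -/
noncomputable def gp (g : ℤ → ℝ) (t : ℤ) : ℝ × ℝ := ((t : ℝ), g t)

/-- level structure of a Horton type sequence on the set `I` of integers -/
structure Lev (c : ℕ → ℤ → ℤ) (g : ℤ → ℝ) (I : Set ℤ) : Prop where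
  same : ∀ (k : ℕ) (t t' : ℤ), t ≡ t' [ZMOD 2 ^ (k + 1)] → c k t = c k t'
  diff : ∀ (k : ℕ) (t t' : ℤ), t ≡ t' [ZMOD 2 ^ k] → ¬ t ≡ t' [ZMOD 2 ^ (k + 1)] → c k t ≠ c k t'
  pos : ∀ (k : ℕ) (t1 t2 t3 : ℤ), t1 ∈ I → t2 ∈ I → t3 ∈ I → t1 < t2 → t2 < t3 →
    t1 ≡ t2 [ZMOD 2 ^ k] → t2 ≡ t3 [ZMOD 2 ^ k] → c k t2 ≤ c k t1 → c k t2 ≤ c k t3 →
    (c k t2 < c k t1 ∨ c k t2 < c k t3) → 0 < ori (gp g t1) (gp g t2) (gp g t3)
  neg : ∀ (k : ℕ) (t1 t2 t3 : ℤ), t1 ∈ I → t2 ∈ I → t3 ∈ I → t1 < t2 → t2 < t3 →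
    t1 ≡ t2 [ZMOD 2 ^ k] → t2 ≡ t3 [ZMOD 2 ^ k] → c k t1 ≤ c k t2 → c k t3 ≤ c k t2 →
    (c k t1 < c k t2 ∨ c k t3 < c k t2) → ori (gp g t1) (gp g t2) (gp g t3) < 0

lemma ori_neg (g : ℤ → ℝ) (a b c : ℤ) :
    ori (gp (fun t => - g t) a) (gp (fun t => - g t) b) (gp (fun t => - g t) c) =
      - ori (gp g a) (gp g b) (gp g c) := by
  unfold ori gp; simp only; ring

lemma Lev.flip {c : ℕ → ℤ → ℤ} {g : ℤ → ℝ} {I : Set ℤ} (h : Lev c g I) :
    Lev (fun k t => - c k t) (fun t => - g t) I where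
  same k t t' e := by rw [h.same k t t' e]
  diff k t t' e e' := by
    have := h.diff k t t' e e'
    intro hc
    exact this (neg_injective hc)
  pos k t1 t2 t3 i1 i2 i3 h1 h2 e1 e2 a1 a2 a3 := by
    rw [ori_neg]
    have := h.neg k t1 t2 t3 i1 i2 i3 h1 h2 e1 e2 (by linarith) (by linarith)
      (by rcases a3 with a | a
          · left; linarith
          · right; linarith)
    linarith
  neg k t1 t2 t3 i1 i2 i3 h1 h2 e1 e2 a1 a2 a3 := by
    rw [ori_neg]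
    have := h.pos k t1 t2 t3 i1 i2 i3 h1 h2 e1 e2 (by linarith) (by linarith)
      (by rcases a3 with a | a
          · left; linarith
          · right; linarith)
    linarith

/-- the level at which a set of integers splits -/
lemma exists_level {X : Finset ℤ} (hX : 2 ≤ X.card) : ∃ j : ℕ,
    (∀ x ∈ X, ∀ y ∈ X, x ≡ y [ZMOD 2 ^ j]) ∧ ∃ x ∈ X, ∃ y ∈ X, ¬ x ≡ y [ZMOD 2 ^ (j + 1)] := by
  classical
  have hex : ∃ j : ℕ, ∃ x ∈ X, ∃ y ∈ X, ¬ x ≡ y [ZMOD 2 ^ (j + 1)] := by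
    obtain ⟨x, hx, y, hy, hxy⟩ := Finset.one_lt_card.1 hX
    refine ⟨(x - y).natAbs, x, hx, y, hy, fun h => ?_⟩
    have h1 : (2:ℤ) ^ ((x - y).natAbs + 1) ∣ y - x := (Int.modEq_iff_dvd).1 h
    have h2 : y - x ≠ 0 := sub_ne_zero.2 (Ne.symm hxy)
    have h3 := Int.natAbs_le_of_dvd_ne_zero h1 h2
    rw [Int.natAbs_pow] at h3
    have h4 : (y - x).natAbs = (x - y).natAbs := by omega
    rw [h4] at h3
    have h5 : (x - y).natAbs < 2 ^ (x - y).natAbs := Nat.lt_two_pow_self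
    have h6 : (2:ℕ) ^ (x - y).natAbs ≤ 2 ^ ((x - y).natAbs + 1) :=
      Nat.pow_le_pow_right (by norm_num) (by omega)
    have h7 : (Int.natAbs 2) = 2 := rfl
    rw [h7] at h3
    omega
  refine ⟨Nat.find hex, ?_, Nat.find_spec hex⟩
  intro x hx y hy
  rcases Nat.eq_zero_or_pos (Nat.find hex) with h0 | h0
  · rw [h0, pow_zero]; exact Int.modEq_one
  · have hlt : Nat.find hex - 1 < Nat.find hex := by omega
    have := Nat.find_min hex hlt
    push Not at this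
    have h1 := this x hx y hy
    rwa [Nat.sub_add_cancel h0] at h1

/-- three classes cannot be pairwise distinct modulo the next power of two -/
lemma two_classes {j : ℕ} {x y z : ℤ} (h1 : x ≡ y [ZMOD 2 ^ j]) (h2 : x ≡ z [ZMOD 2 ^ j])
    (h3 : ¬ x ≡ y [ZMOD 2 ^ (j + 1)]) (h4 : ¬ x ≡ z [ZMOD 2 ^ (j + 1)]) : y ≡ z [ZMOD 2 ^ (j + 1)] := by
  obtain ⟨a, ha⟩ := Int.modEq_iff_dvd.1 h1
  obtain ⟨b, hb⟩ := Int.modEq_iff_dvd.1 h2
  have ha' : a % 2 = 1 := by
    by_contra hc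
    apply h3
    rw [Int.modEq_iff_dvd, ha, pow_succ]
    exact mul_dvd_mul_left _ (by omega)
  have hb' : b % 2 = 1 := by
    by_contra hc
    apply h4
    rw [Int.modEq_iff_dvd, hb, pow_succ]
    exact mul_dvd_mul_left _ (by omega)
  rw [Int.modEq_iff_dvd]
  have e : z - y = 2 ^ j * (b - a) := by
    rw [mul_sub, ← ha, ← hb]; ring
  rw [e, pow_succ]
  exact mul_dvd_mul_left _ (by omega)

/-- four points of one class: there is a cap whose middle point belongs to the index set -/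
lemma four_cap {c : ℕ → ℤ → ℤ} {g : ℤ → ℝ} {A B : ℤ} (h : Lev c g (Icc A B)) {K : ℕ} {L : Finset ℤ}
    (hL : ∀ x ∈ L, x ∈ Icc A B) (h4 : 4 ≤ L.card)
    (hK : ∀ x ∈ L, ∀ y ∈ L, x ≡ y [ZMOD 2 ^ K]) :
    ∃ a ∈ L, ∃ b ∈ L, ∃ z ∈ Icc A B, a < z ∧ z < b ∧ (∀ x ∈ L, x ≡ z [ZMOD 2 ^ K]) ∧
      ori (gp g a) (gp g z) (gp g b) < 0 := by
  classical
  obtain ⟨j, hj, x0, hx0, y0, hy0, hxy⟩ := exists_level (X := L) (by omega)
  have hKj : K ≤ j := by
    by_contra hc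
    apply hxy
    exact (hK x0 hx0 y0 hy0).of_dvd (pow_dvd_pow _ (by omega))
  -- choose a class of smallest value
  obtain ⟨l0, hl0, hmin⟩ := L.exists_min_image (fun t => c j t) ⟨x0, hx0⟩
  set L1 := L.filter (fun t => t ≡ l0 [ZMOD 2 ^ (j + 1)]) with hL1
  set L2 := L.filter (fun t => ¬ t ≡ l0 [ZMOD 2 ^ (j + 1)]) with hL2
  have hcard : L1.card + L2.card = L.card := Finset.card_filter_add_card_filter_not _
  have hL1v : ∀ t ∈ L1, c j t = c j l0 := fun t ht => h.same j t l0 (Finset.mem_filter.1 ht).2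
  have hL2v : ∀ t ∈ L2, c j l0 < c j t := by
    intro t ht
    obtain ⟨ht1, ht2⟩ := Finset.mem_filter.1 ht
    exact lt_of_le_of_ne (hmin t ht1) (Ne.symm (h.diff j t l0 (hj t ht1 l0 hl0) ht2))
  have hL2e : ∀ t ∈ L2, ∀ t' ∈ L2, c j t = c j t' := by
    intro t ht t' ht'
    obtain ⟨ht1, ht2⟩ := Finset.mem_filter.1 ht
    obtain ⟨ht1', ht2'⟩ := Finset.mem_filter.1 ht'
    exact h.same j t t' (two_classes (hj l0 hl0 t ht1) (hj l0 hl0 t' ht1') (fun e => ht2 e.symm)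
      (fun e => ht2' e.symm))
  have hL2ne : L2.Nonempty := by
    by_contra hc
    rw [Finset.not_nonempty_iff_eq_empty] at hc
    have : ∀ t ∈ L, t ≡ l0 [ZMOD 2 ^ (j + 1)] := by
      intro t ht
      by_contra hn
      have : t ∈ L2 := Finset.mem_filter.2 ⟨ht, hn⟩
      rw [hc] at this
      simp at this
    exact hxy ((this x0 hx0).trans (this y0 hy0).symm)
  rcases Nat.lt_or_ge 1 L1.card with hc1 | hc1
  · -- two elements of the low class
    obtain ⟨x, hx, y, hy, hne⟩ := Finset.one_lt_card.1 hc1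
    obtain ⟨l1, h1, l2, h2, hlt⟩ : ∃ l1 ∈ L1, ∃ l2 ∈ L1, l1 < l2 := by
      rcases lt_or_gt_of_ne hne with hh | hh
      · exact ⟨x, hx, y, hy, hh⟩
      · exact ⟨y, hy, x, hx, hh⟩
    obtain ⟨m1, e1⟩ := Finset.mem_filter.1 h1
    obtain ⟨m2, e2⟩ := Finset.mem_filter.1 h2
    have e12 : (2:ℤ) ^ (j + 1) ∣ l2 - l1 := Int.modEq_iff_dvd.1 (e1.trans e2.symm)
    have hle : (2:ℤ) ^ (j + 1) ≤ l2 - l1 := Int.le_of_dvd (by omega) e12
    have hpj : (0:ℤ) < 2 ^ j := by positivity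
    have hps : (2:ℤ) ^ (j + 1) = 2 * 2 ^ j := by ring
    set z := l1 + 2 ^ j with hz
    have hzI : z ∈ Icc A B := by
      have i1 := hL l1 m1
      have i2 := hL l2 m2
      rw [mem_Icc] at i1 i2 ⊢
      omega
    have hzl : l1 ≡ z [ZMOD 2 ^ j] := by
      rw [Int.modEq_iff_dvd, hz]; exact ⟨1, by ring⟩
    have hzl' : ¬ l1 ≡ z [ZMOD 2 ^ (j + 1)] := by
      rw [Int.modEq_iff_dvd, hz]
      intro hd
      have hd' : (2:ℤ) ^ (j + 1) ∣ 2 ^ j := by simpa using hd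
      have := Int.le_of_dvd hpj hd'
      omega
    obtain ⟨hh, hhm⟩ := hL2ne
    obtain ⟨mh, eh⟩ := Finset.mem_filter.1 hhm
    have hzh : z ≡ hh [ZMOD 2 ^ (j + 1)] := two_classes hzl (hj l1 m1 hh mh) hzl'
      (fun e => eh (e.symm.trans e1))
    have hcz : c j z = c j hh := h.same j z hh hzh
    have hlow : c j l0 < c j z := by rw [hcz]; exact hL2v hh hhm
    refine ⟨l1, m1, l2, m2, z, hzI, by omega, by omega, ?_, ?_⟩
    · intro x hx
      exact ((hj x hx l1 m1).trans hzl).of_dvd (pow_dvd_pow _ hKj)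
    · apply h.neg j l1 z l2 (hL l1 m1) hzI (hL l2 m2) (by omega) (by omega) hzl
        (hzl.symm.trans (hj l1 m1 l2 m2))
      · rw [hL1v l1 h1]; exact hlow.le
      · rw [hL1v l2 h2]; exact hlow.le
      · left; rw [hL1v l1 h1]; exact hlow
  · -- at least three elements of the high class
    have hc2 : 3 ≤ L2.card := by omega
    have hsplit : 1 < (L2.filter (fun t => t < l0)).card ∨ 1 < (L2.filter (fun t => l0 < t)).card := by
      by_contra hcon
      push Not at hcon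
      have hu : L2 ⊆ L2.filter (fun t => t < l0) ∪ L2.filter (fun t => l0 < t) := by
        intro t ht
        have hne : t ≠ l0 := by
          rintro rfl
          exact (Finset.mem_filter.1 ht).2 (Int.ModEq.refl _)
        rw [Finset.mem_union]
        rcases lt_or_gt_of_ne hne with hh | hh
        · exact Or.inl (Finset.mem_filter.2 ⟨ht, hh⟩)
        · exact Or.inr (Finset.mem_filter.2 ⟨ht, hh⟩)
      have := (Finset.card_le_card hu).trans (Finset.card_union_le _ _)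
      omega
    rcases hsplit with hs | hs
    · obtain ⟨x, hx, y, hy, hne⟩ := Finset.one_lt_card.1 hs
      obtain ⟨t1, h1, t2, h2, hlt⟩ : ∃ t1 ∈ L2.filter (fun t => t < l0), ∃ t2 ∈ L2.filter (fun t => t < l0),
          t1 < t2 := by
        rcases lt_or_gt_of_ne hne with hh | hh
        · exact ⟨x, hx, y, hy, hh⟩
        · exact ⟨y, hy, x, hx, hh⟩
      obtain ⟨n1, o1⟩ := Finset.mem_filter.1 h1
      obtain ⟨n2, o2⟩ := Finset.mem_filter.1 h2
      have m1 := (Finset.mem_filter.1 n1).1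
      have m2 := (Finset.mem_filter.1 n2).1
      refine ⟨t1, m1, l0, hl0, t2, hL t2 m2, hlt, o2, fun x hx => ?_, ?_⟩
      · exact (hj x hx t2 m2).of_dvd (pow_dvd_pow _ hKj)
      · apply h.neg j t1 t2 l0 (hL t1 m1) (hL t2 m2) (hL l0 hl0) hlt o2 (hj t1 m1 t2 m2) (hj t2 m2 l0 hl0)
        · exact (hL2e t1 n1 t2 n2).le
        · exact (hL2v t2 n2).le
        · right; exact hL2v t2 n2
    · obtain ⟨x, hx, y, hy, hne⟩ := Finset.one_lt_card.1 hs
      obtain ⟨t1, h1, t2, h2, hlt⟩ : ∃ t1 ∈ L2.filter (fun t => l0 < t), ∃ t2 ∈ L2.filter (fun t => l0 < t),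
          t1 < t2 := by
        rcases lt_or_gt_of_ne hne with hh | hh
        · exact ⟨x, hx, y, hy, hh⟩
        · exact ⟨y, hy, x, hx, hh⟩
      obtain ⟨n1, o1⟩ := Finset.mem_filter.1 h1
      obtain ⟨n2, o2⟩ := Finset.mem_filter.1 h2
      have m1 := (Finset.mem_filter.1 n1).1
      have m2 := (Finset.mem_filter.1 n2).1
      refine ⟨l0, hl0, t2, m2, t1, hL t1 m1, o1, hlt, fun x hx => ?_, ?_⟩
      · exact (hj x hx t1 m1).of_dvd (pow_dvd_pow _ hKj)
      · apply h.neg j l0 t1 t2 (hL l0 hl0) (hL t1 m1) (hL t2 m2) o1 hlt (hj l0 hl0 t1 m1) (hj t1 m1 t2 m2)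
        · exact (hL2v t1 n1).le
        · exact (hL2e t1 n1 t2 n2).ge
        · left; exact hL2v t1 n1

/-- four points of a lower class and one point of the higher class -/
lemma four_one {c : ℕ → ℤ → ℤ} {g : ℤ → ℝ} {A B : ℤ} (h : Lev c g (Icc A B)) {K : ℕ} {L : Finset ℤ}
    (hL : ∀ x ∈ L, x ∈ Icc A B) (h4 : 4 ≤ L.card)
    (hK : ∀ x ∈ L, ∀ y ∈ L, x ≡ y [ZMOD 2 ^ (K + 1)]) {u : ℤ} (hu : u ∈ Icc A B)
    (hu1 : ∀ x ∈ L, x ≡ u [ZMOD 2 ^ K]) (hu2 : ∀ x ∈ L, c K x < c K u) :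
    ∃ a ∈ L, ∃ b ∈ L, ∃ z ∈ Icc A B, In (gp g a) (gp g b) (gp g u) (gp g z) := by
  obtain ⟨a, ha, b, hb, z, hz, haz, hzb, hze, ho⟩ := four_cap h hL h4 hK
  refine ⟨a, ha, b, hb, z, hz, ?_, ?_, ?_⟩
  · rw [ori_swap]; linarith
  all_goals
    have ia := hL a ha
    have ib := hL b hb
    have ca := hu2 a ha
    have cb := hu2 b hb
    have ea := hu1 a ha
    have eb := hu1 b hb
    have zaz : c K z = c K a := (h.same K a z (hze a ha)).symm
    have zbz : c K z = c K b := (h.same K b z (hze b hb)).symm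
    have dv : (2:ℤ) ^ K ∣ 2 ^ (K + 1) := pow_dvd_pow _ (by omega)
    have ea' : a ≡ z [ZMOD 2 ^ K] := (hze a ha).of_dvd dv
    have eb' : b ≡ z [ZMOD 2 ^ K] := (hze b hb).of_dvd dv
    have hua : u ≠ a := by rintro rfl; exact lt_irrefl _ ca
    have hub : u ≠ b := by rintro rfl; exact lt_irrefl _ cb
    have huz : u ≠ z := by rintro rfl; rw [zaz] at ca; exact lt_irrefl _ ca
  · -- 0 < ori b u z
    rcases lt_or_gt_of_ne huz with h1 | h1
    · rw [ori_cyc]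
      exact h.pos K u z b hu hz ib h1 hzb (ea.symm.trans ea') eb'.symm (by omega) (by omega) (by omega)
    · rcases lt_or_gt_of_ne hub with h2 | h2
      · rw [ori_cyc', ori_swap]
        have := h.neg K z u b hz hu ib h1 h2 (ea'.symm.trans ea) eb.symm (by omega) (by omega) (by omega)
        linarith
      · rw [ori_cyc']
        exact h.pos K z b u hz ib hu hzb h2 eb'.symm eb (by omega) (by omega) (by omega)
  · -- 0 < ori u a z
    rcases lt_or_gt_of_ne hua with h1 | h1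
    · exact h.pos K u a z hu ia hz h1 haz ea.symm ea' (by omega) (by omega) (by omega)
    · rcases lt_or_gt_of_ne huz with h2 | h2
      · rw [ori_swap']
        have := h.neg K a u z ia hu hz h1 h2 ea (ea.symm.trans ea') (by omega) (by omega) (by omega)
        linarith
      · rw [ori_cyc]
        exact h.pos K a z u ia hz hu haz h2 ea' (ea'.symm.trans ea) (by omega) (by omega) (by omega)

lemma In_flip {g : ℤ → ℝ} {a b c z : ℤ}
    (h : In (gp (fun t => - g t) a) (gp (fun t => - g t) b) (gp (fun t => - g t) c)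
      (gp (fun t => - g t) z)) : In (gp g a) (gp g c) (gp g b) (gp g z) := by
  obtain ⟨h1, h2, h3⟩ := h
  rw [ori_neg] at h1 h2 h3
  refine ⟨?_, ?_, ?_⟩
  · rw [ori_swap']; linarith
  · rw [ori_swap']; linarith
  · rw [ori_swap']; linarith

/-- seven points of a Horton type graph -/
lemma seven {c : ℕ → ℤ → ℤ} {g : ℤ → ℝ} {A B : ℤ} (h : Lev c g (Icc A B)) {X : Finset ℤ}
    (hX : ∀ x ∈ X, x ∈ Icc A B) (h7 : 7 ≤ X.card) :
    ∃ a ∈ X, ∃ b ∈ X, ∃ d ∈ X, ∃ z ∈ Icc A B, In (gp g a) (gp g b) (gp g d) (gp g z) := by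
  classical
  obtain ⟨j, hj, x0, hx0, y0, hy0, hxy⟩ := exists_level (X := X) (by omega)
  obtain ⟨l0, hl0, hmin⟩ := X.exists_min_image (fun t => c j t) ⟨x0, hx0⟩
  set L1 := X.filter (fun t => t ≡ l0 [ZMOD 2 ^ (j + 1)]) with hL1
  set L2 := X.filter (fun t => ¬ t ≡ l0 [ZMOD 2 ^ (j + 1)]) with hL2
  have hcard : L1.card + L2.card = X.card := Finset.card_filter_add_card_filter_not _
  have hL1v : ∀ t ∈ L1, c j t = c j l0 := fun t ht => h.same j t l0 (Finset.mem_filter.1 ht).2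
  have hL2v : ∀ t ∈ L2, c j l0 < c j t := by
    intro t ht
    obtain ⟨ht1, ht2⟩ := Finset.mem_filter.1 ht
    exact lt_of_le_of_ne (hmin t ht1) (Ne.symm (h.diff j t l0 (hj t ht1 l0 hl0) ht2))
  have hL2c : ∀ t ∈ L2, ∀ t' ∈ L2, t ≡ t' [ZMOD 2 ^ (j + 1)] := by
    intro t ht t' ht'
    obtain ⟨ht1, ht2⟩ := Finset.mem_filter.1 ht
    obtain ⟨ht1', ht2'⟩ := Finset.mem_filter.1 ht'
    exact two_classes (hj l0 hl0 t ht1) (hj l0 hl0 t' ht1') (fun e => ht2 e.symm)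
      (fun e => ht2' e.symm)
  have hL1c : ∀ t ∈ L1, ∀ t' ∈ L1, t ≡ t' [ZMOD 2 ^ (j + 1)] := by
    intro t ht t' ht'
    exact (Finset.mem_filter.1 ht).2.trans (Finset.mem_filter.1 ht').2.symm
  have hL1ne : L1.Nonempty := ⟨l0, Finset.mem_filter.2 ⟨hl0, Int.ModEq.refl _⟩⟩
  have hL2ne : L2.Nonempty := by
    by_contra hc
    rw [Finset.not_nonempty_iff_eq_empty] at hc
    have : ∀ t ∈ X, t ≡ l0 [ZMOD 2 ^ (j + 1)] := by
      intro t ht
      by_contra hn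
      have : t ∈ L2 := Finset.mem_filter.2 ⟨ht, hn⟩
      rw [hc] at this
      simp at this
    exact hxy ((this x0 hx0).trans (this y0 hy0).symm)
  have s1 : ∀ t ∈ L1, t ∈ X := fun t ht => (Finset.mem_filter.1 ht).1
  have s2 : ∀ t ∈ L2, t ∈ X := fun t ht => (Finset.mem_filter.1 ht).1
  rcases Nat.lt_or_ge 3 L1.card with hc1 | hc1
  · obtain ⟨u, hu⟩ := hL2ne
    obtain ⟨a, ha, b, hb, z, hz, hI⟩ := four_one h (fun x hx => hX x (s1 x hx)) (by omega) hL1c
      (hX u (s2 u hu)) (fun x hx => hj x (s1 x hx) u (s2 u hu))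
      (fun x hx => by rw [hL1v x hx]; exact hL2v u hu)
    exact ⟨a, s1 a ha, b, s1 b hb, u, s2 u hu, z, hz, hI⟩
  · obtain ⟨u, hu⟩ := hL1ne
    obtain ⟨a, ha, b, hb, z, hz, hI⟩ := four_one h.flip (fun x hx => hX x (s2 x hx)) (by omega) hL2c
      (hX u (s1 u hu)) (fun x hx => hj x (s2 x hx) u (s1 u hu))
      (fun x hx => by
        have := hL2v x hx
        rw [hL1v u hu]
        omega)
    exact ⟨a, s2 a ha, u, s1 u hu, b, s2 b hb, z, hz, In_flip hI⟩

end Pool.Agent.E8helper67.KH
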