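import Mathlib

/-!
Orientation of triples of points in the plane; strict containment in triangles.
-/

set_option autoImplicit false

open Filter Set
open scoped Topology

namespace Pool.Agent.E8helper67.KH

/-- orientation of a triple -/
def ori (a b c : ℝ × ℝ) : ℝ := (b.1 - a.1) * (c.2 - a.2) - (b.2 - a.2) * (c.1 - a.1)

lemma ori_cyc (a b c : ℝ × ℝ) : ori a b c = ori b c a := by unfold ori; ring

lemma ori_cyc' (a b c : ℝ × ℝ) : ori a b c = ori c a b := by unfold ori; ring

lemma ori_swap (a b c : ℝ × ℝ) : ori a c b = - ori a b c := by unfold ori; ring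

lemma ori_swap' (a b c : ℝ × ℝ) : ori b a c = - ori a b c := by unfold ori; ring

/-- `z` lies strictly inside the positively oriented triangle `a b c` -/
def In (a b c z : ℝ × ℝ) : Prop := 0 < ori a b z ∧ 0 < ori b c z ∧ 0 < ori c a z

lemma In.mem_interior {a b c z : ℝ × ℝ} (h : In a b c z) :
    z ∈ interior (convexHull ℝ ({a, b, c} : Set (ℝ × ℝ))) := by
  have hopen : IsOpen {z : ℝ × ℝ | In a b c z} := by
    have h1 : IsOpen {z : ℝ × ℝ | 0 < ori a b z} := by
      apply isOpen_lt continuous_const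
      unfold ori; fun_prop
    have h2 : IsOpen {z : ℝ × ℝ | 0 < ori b c z} := by
      apply isOpen_lt continuous_const
      unfold ori; fun_prop
    have h3 : IsOpen {z : ℝ × ℝ | 0 < ori c a z} := by
      apply isOpen_lt continuous_const
      unfold ori; fun_prop
    exact h1.inter (h2.inter h3)
  refine interior_maximal (s := convexHull ℝ ({a, b, c} : Set (ℝ × ℝ))) ?_ hopen h
  rintro w ⟨h1, h2, h3⟩
  set D := ori a b w + ori b c w + ori c a w with hD
  have hDpos : 0 < D := by positivity
  have hconv := convex_convexHull ℝ ({a, b, c} : Set (ℝ × ℝ))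
  have ha : a ∈ convexHull ℝ ({a, b, c} : Set (ℝ × ℝ)) := subset_convexHull _ _ (by simp)
  have hb : b ∈ convexHull ℝ ({a, b, c} : Set (ℝ × ℝ)) := subset_convexHull _ _ (by simp)
  have hc : c ∈ convexHull ℝ ({a, b, c} : Set (ℝ × ℝ)) := subset_convexHull _ _ (by simp)
  have hmem := hconv.sum_mem (t := Finset.univ) (w := ![ori b c w / D, ori c a w / D, ori a b w / D])
    (z := ![a, b, c]) (by
      intro i _
      fin_cases i
      · exact (div_pos h2 hDpos).le
      · exact (div_pos h3 hDpos).le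
      · exact (div_pos h1 hDpos).le)
    (by
      rw [Fin.sum_univ_three]
      simp only [Matrix.cons_val_zero, Matrix.cons_val_one, Matrix.cons_val]
      rw [← add_div, ← add_div, hD]
      rw [div_eq_one_iff_eq hDpos.ne', hD]
      ring)
    (by
      intro i _
      fin_cases i
      · exact ha
      · exact hb
      · exact hc)
  rw [Fin.sum_univ_three] at hmem
  simp only [Matrix.cons_val_zero, Matrix.cons_val_one, Matrix.cons_val] at hmem
  have e : (ori b c w / D) • a + (ori c a w / D) • b + (ori a b w / D) • c = w := by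
    ext
    · simp only [Prod.fst_add, Prod.smul_fst, smul_eq_mul]
      field_simp
      rw [hD]
      unfold ori
      ring
    · simp only [Prod.snd_add, Prod.smul_snd, smul_eq_mul]
      field_simp
      rw [hD]
      unfold ori
      ring
  rw [e] at hmem
  exact hmem

/-- every large subfamily strictly contains a point of the family in one of its triangles -/
def Bd {ι : Type} (P : ι → ℝ × ℝ) (h : ℕ) : Prop := ∀ X : Finset ι, h < X.card →
  ∃ a ∈ X, ∃ b ∈ X, ∃ c ∈ X, ∃ z, In (P a) (P b) (P c) (P z)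

lemma tendsto_ori {l : Filter ℝ} {f g k : ℝ → ℝ × ℝ} {a b c : ℝ × ℝ} (hf : Tendsto f l (𝓝 a))
    (hg : Tendsto g l (𝓝 b)) (hk : Tendsto k l (𝓝 c)) :
    Tendsto (fun e => ori (f e) (g e) (k e)) l (𝓝 (ori a b c)) := by
  have hc : Continuous (fun p : (ℝ × ℝ) × (ℝ × ℝ) × (ℝ × ℝ) => ori p.1 p.2.1 p.2.2) := by
    unfold ori; fun_prop
  exact (hc.tendsto (a, b, c)).comp (hf.prodMk_nhds (hg.prodMk_nhds hk))

lemma eventually_In {l : Filter ℝ} {f g k m : ℝ → ℝ × ℝ} {a b c z : ℝ × ℝ} (hf : Tendsto f l (𝓝 a))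
    (hg : Tendsto g l (𝓝 b)) (hk : Tendsto k l (𝓝 c)) (hm : Tendsto m l (𝓝 z)) (h : In a b c z) :
    ∀ᶠ e in l, In (f e) (g e) (k e) (m e) := by
  obtain ⟨h1, h2, h3⟩ := h
  filter_upwards [(tendsto_ori hf hg hm).eventually_const_lt h1,
    (tendsto_ori hg hk hm).eventually_const_lt h2,
    (tendsto_ori hk hf hm).eventually_const_lt h3] with e a b c
  exact ⟨a, b, c⟩

/-- strict containments survive small perturbations, uniformly over a finite index type -/
lemma eventually_In_all {l : Filter ℝ} {ι ι' : Type} [Finite ι'] {P : ι → ℝ × ℝ} {π : ι' → ι}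
    {P' : ℝ → ι' → ℝ × ℝ} (h : ∀ i, Tendsto (fun e => P' e i) l (𝓝 (P (π i)))) :
    ∀ᶠ e in l, ∀ a b c z : ι', In (P (π a)) (P (π b)) (P (π c)) (P (π z)) →
      In (P' e a) (P' e b) (P' e c) (P' e z) := by
  rw [eventually_all]; intro a
  rw [eventually_all]; intro b
  rw [eventually_all]; intro c
  rw [eventually_all]; intro z
  by_cases hI : In (P (π a)) (P (π b)) (P (π c)) (P (π z))
  · filter_upwards [eventually_In (h a) (h b) (h c) (h z) hI] with e he _
    exact he
  · exact Eventually.of_forall fun e he => absurd he hI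

/-- `Bd` survives small perturbations -/
lemma Bd.eventually {l : Filter ℝ} {ι : Type} [Finite ι] {P : ι → ℝ × ℝ} {H : ℕ} (hP : Bd P H)
    {P' : ℝ → ι → ℝ × ℝ} (h : ∀ i, Tendsto (fun e => P' e i) l (𝓝 (P i))) :
    ∀ᶠ e in l, Bd (P' e) H := by
  filter_upwards [eventually_In_all (π := id) h] with e he X hX
  obtain ⟨a, ha, b, hb, c, hc, z, hz⟩ := hP X hX
  exact ⟨a, ha, b, hb, c, hc, z, he a b c z hz⟩

end Pool.Agent.E8helper67.KH
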